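import Pool.Agent.Helper5.TQ.Main

/-!
# The three quarter law for the digits of the elements of a set with bounded mean square
of the representation function
-/

namespace Pool.Agent.Helper5.TQ.Text

open Filter

/-- `rep A n` is the number of ordered pairs of elements of `A` with sum `n`. -/
noncomputable def rep (A : Set ℕ) (n : ℕ) : ℕ :=
  {p : ℕ × ℕ | p.1 ∈ A ∧ p.2 ∈ A ∧ p.1 + p.2 = n}.ncard

/-- `count A x` is the number of elements of `A` below `x`. -/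
noncomputable def count (A : Set ℕ) (x : ℕ) : ℕ := {a | a ∈ A ∧ a < x}.ncard

/-- `blocks b l v K a` is the number of `i < K` such that the digits of `a` in base `b` at the
places `i, i + 1, ..., i + l - 1` form the number `v`. -/
noncomputable def blocks (b l v K a : ℕ) : ℕ := {i | i < K ∧ a / b ^ i % b ^ l = v}.ncard

theorem rep_eq (A : Set ℕ) (n : ℕ) : rep A n = Pool.Agent.Helper25.RC.rep A n := by
  classical
  unfold rep Pool.Agent.Helper25.RC.rep
  rw [← Set.ncard_coe_finset]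
  congr 1
  ext p
  simp only [Set.mem_ofPred_eq, Finset.coe_filter, Finset.HasAntidiagonal.mem_antidiagonal]
  tauto

theorem count_eq (A : Set ℕ) (x : ℕ) :
    count A x = (Pool.Agent.Helper25.RC.below A x).card := by
  unfold count
  rw [← Set.ncard_coe_finset]
  congr 1
  ext a
  simp only [Set.mem_ofPred_eq, Finset.mem_coe, Pool.Agent.Helper25.RC.mem_below]
  tauto

theorem blocks_eq (b l v K a : ℕ) : blocks b l v K a = cnt b l v K a := by
  unfold blocks cnt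
  rw [← Set.ncard_coe_finset]
  congr 1
  ext i
  simp only [Set.mem_ofPred_eq, Finset.coe_filter, Finset.mem_range]

theorem bad_eq (b l v : ℕ) (A : Set ℕ) (K : ℕ) (w : ℝ) :
    {a | a ∈ A ∧ a < b ^ K ∧ w ≤ |(cnt b l v K a : ℝ) - K / (b : ℝ) ^ l|}.ncard =
      (bad b l v A K w).card := by
  rw [← Set.ncard_coe_finset]
  congr 1
  ext a
  rw [Finset.mem_coe, bad, Finset.mem_filter, Pool.Agent.Helper25.RC.mem_below,
    Set.mem_ofPred_eq]
  tauto

theorem main :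
    (∀ b l : ℕ, 2 ≤ b → 1 ≤ l → ∃ C : ℝ, ∀ (v K : ℕ) (B : Finset ℕ), v < b ^ l →
      (∀ a ∈ B, a < b ^ K) →
        |∑ a ∈ B, ((blocks b l v K a : ℝ) - K / (b : ℝ) ^ l)| ≤
          C * (K : ℝ) ^ (3 / 4 : ℝ) *
            ((b : ℝ) ^ K * ∑ n ∈ Finset.range (2 * b ^ K), (rep B n : ℝ) ^ 2) ^ (1 / 4 : ℝ)) ∧
    ∀ ω : ℕ → ℝ, List.TFAE [
      Tendsto (fun K : ℕ => ω K / (K : ℝ) ^ (3 / 4 : ℝ)) atTop atTop,
      ∀ b l v : ℕ, 2 ≤ b → 1 ≤ l → v < b ^ l → ∀ (A : Set ℕ) (C : ℝ),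
        (∀ x : ℕ, ∑ n ∈ Finset.range x, (rep A n : ℝ) ^ 2 ≤ C * x) →
          Tendsto (fun K : ℕ =>
            ({a | a ∈ A ∧ a < b ^ K ∧ ω K ≤ |(blocks b l v K a : ℝ) - K / (b : ℝ) ^ l|}.ncard : ℝ)
              / √((b : ℝ) ^ K)) atTop (nhds 0),
      ∀ (A : Set ℕ) (c C : ℝ), 0 < c → (∀ x : ℕ, 2 ≤ x → c * √x ≤ count A x) →
        (∀ x : ℕ, ∑ n ∈ Finset.range x, (rep A n : ℝ) ^ 2 ≤ C * x) →
          ∀ᶠ K : ℕ in atTop, ∃ a ∈ A, a < 2 ^ K ∧ |(blocks 2 1 0 K a : ℝ) - K / 2| < ω K] := by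
  refine ⟨fun b l hb hl => ?_, fun ω => ?_⟩
  · obtain ⟨C, -, h⟩ := upper b l hb hl
    refine ⟨C, fun v K B hv hB => ?_⟩
    have h1 := h v K B hv (fun a ha => Finset.mem_range.2 (hB a ha))
    simpa only [blocks_eq, rep_eq, r_eq] using h1
  · have h := law ω
    simpa only [blocks_eq, rep_eq, count_eq, bad_eq] using h

end Pool.Agent.Helper5.TQ.Text
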