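import Pool.Agent.Helper5.TQ.Up2
import Pool.Agent.Helper5.TQ.Text

/-!
# The three quarter law for the digits of the elements of a set with bounded mean square
of the representation function, and of the summands of almost all sums
-/

namespace Pool.Agent.Helper5.TQ.Text2

open Filter

/-- `rep A n` is the number of ordered pairs of elements of `A` with sum `n`. -/
noncomputable def rep (A : Set ℕ) (n : ℕ) : ℕ :=
  {p : ℕ × ℕ | p.1 ∈ A ∧ p.2 ∈ A ∧ p.1 + p.2 = n}.ncard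

/-- `count A x` is the number of elements of `A` below `x`. -/
noncomputable def count (A : Set ℕ) (x : ℕ) : ℕ := {a | a ∈ A ∧ a < x}.ncard

/-- `blocks b l v K a` is the number of `i < K` such that the digits of `a` in base `b` at the
places `i, i + 1, ..., i + l - 1` form the number `v`. -/
noncomputable def blocks (b l v K a : ℕ) : ℕ := {i | i < K ∧ a / b ^ i % b ^ l = v}.ncard

/-- `blocks2 b l u v K n a` is the number of `i < K` such that the digits at the places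
`i, i + 1, ..., i + l - 1` form the number `u` for `n` and the number `v` for `a`. -/
noncomputable def blocks2 (b l u v K n a : ℕ) : ℕ :=
  {i | i < K ∧ n / b ^ i % b ^ l = u ∧ a / b ^ i % b ^ l = v}.ncard

theorem rep_eq (A : Set ℕ) (n : ℕ) : rep A n = Pool.Agent.Helper25.RC.rep A n := by
  rw [← Text.rep_eq]
  rfl

theorem count_eq (A : Set ℕ) (x : ℕ) :
    count A x = (Pool.Agent.Helper25.RC.below A x).card := by
  rw [← Text.count_eq]
  rfl

theorem blocks_eq (b l v K a : ℕ) : blocks b l v K a = cnt b l v K a := by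
  rw [← Text.blocks_eq]
  rfl

theorem blocks2_eq (b l u v K n a : ℕ) : blocks2 b l u v K n a = cnt2 b l u v K n a := by
  unfold blocks2 cnt2
  rw [← Set.ncard_coe_finset]
  congr 1
  ext i
  simp only [Set.mem_ofPred_eq, Finset.coe_filter, Finset.mem_range]

theorem bad2_eq (b l u v : ℕ) (A : Set ℕ) (K : ℕ) (w : ℝ) :
    {n | n < b ^ K ∧ ∃ a ∈ A, ∃ a' ∈ A, a + a' = n ∧
      w ≤ |(cnt2 b l u v K n a : ℝ) - K / (b : ℝ) ^ (2 * l)|}.ncard =
      (bad2 b l u v A K w).card := by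
  classical
  rw [← Set.ncard_coe_finset]
  congr 1
  ext n
  rw [Finset.mem_coe, bad2, Finset.mem_filter, Finset.mem_range, Set.mem_ofPred_eq]

theorem main :
    (∀ b l : ℕ, 2 ≤ b → 1 ≤ l → ∃ C : ℝ, ∀ (u v K : ℕ) (B : Finset ℕ) (P : Finset (ℕ × ℕ)),
      u < b ^ l → v < b ^ l → (∀ a ∈ B, a < b ^ K) → P ⊆ B ×ˢ B →
        |∑ a ∈ B, ((blocks b l v K a : ℝ) - K / (b : ℝ) ^ l)| ≤
          C * (K : ℝ) ^ (3 / 4 : ℝ) *
            ((b : ℝ) ^ K * ∑ n ∈ Finset.range (2 * b ^ K), (rep B n : ℝ) ^ 2) ^ (1 / 4 : ℝ) ∧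
        |∑ p ∈ P, ((blocks2 b l u v K (p.1 + p.2) p.1 : ℝ) - K / (b : ℝ) ^ (2 * l))| ≤
          C * (K : ℝ) ^ (3 / 4 : ℝ) *
            ((b : ℝ) ^ K * ∑ n ∈ Finset.range (2 * b ^ K), (rep B n : ℝ) ^ 2) ^ (1 / 2 : ℝ)) ∧
    ∀ ω : ℕ → ℝ, List.TFAE [
      Tendsto (fun K : ℕ => ω K / (K : ℝ) ^ (3 / 4 : ℝ)) atTop atTop,
      ∀ b l : ℕ, 2 ≤ b → 1 ≤ l → ∀ (A : Set ℕ) (C : ℝ),
        (∀ x : ℕ, ∑ n ∈ Finset.range x, (rep A n : ℝ) ^ 2 ≤ C * x) →
          (∀ v < b ^ l, Tendsto (fun K : ℕ =>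
            ({a | a ∈ A ∧ a < b ^ K ∧ ω K ≤ |(blocks b l v K a : ℝ) - K / (b : ℝ) ^ l|}.ncard : ℝ)
              / √((b : ℝ) ^ K)) atTop (nhds 0)) ∧
          ∀ u < b ^ l, ∀ v < b ^ l, Tendsto (fun K : ℕ =>
            ({n | n < b ^ K ∧ ∃ a ∈ A, ∃ a' ∈ A, a + a' = n ∧
              ω K ≤ |(blocks2 b l u v K n a : ℝ) - K / (b : ℝ) ^ (2 * l)|}.ncard : ℝ)
              / (b : ℝ) ^ K) atTop (nhds 0),
      ∀ (A : Set ℕ) (c C : ℝ), 0 < c → (∀ x : ℕ, 2 ≤ x → c * √x ≤ count A x) →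
        (∀ x : ℕ, ∑ n ∈ Finset.range x, (rep A n : ℝ) ^ 2 ≤ C * x) →
          ∀ᶠ K : ℕ in atTop, ∃ a ∈ A, a < 2 ^ K ∧ |(blocks 2 1 0 K a : ℝ) - K / 2| < ω K] := by
  refine ⟨fun b l hb hl => ?_, fun ω => ?_⟩
  · obtain ⟨C, hC, h⟩ := upper b l hb hl
    obtain ⟨C', hC', h'⟩ := upper2 b l hb hl
    refine ⟨max C C', fun u v K B P hu hv hB hP => ?_⟩
    have hBr : B ⊆ Finset.range (b ^ K) := fun a ha => Finset.mem_range.2 (hB a ha)
    have h1 := h v K B hv hBr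
    have h2 := h' u v K B P hu hv hBr hP
    simp only [blocks_eq, blocks2_eq, rep_eq, ← r_eq]
    have hE : 0 ≤ (b : ℝ) ^ K *
        ∑ n ∈ Finset.range (2 * b ^ K), (Pool.Agent.Helper16.NM.r B n : ℝ) ^ 2 :=
      mul_nonneg (by positivity) (Finset.sum_nonneg fun n _ => sq_nonneg _)
    constructor
    · refine h1.trans (mul_le_mul_of_nonneg_right (mul_le_mul_of_nonneg_right
        (le_max_left _ _) (by positivity)) (Real.rpow_nonneg hE _))
    · refine h2.trans (mul_le_mul_of_nonneg_right (mul_le_mul_of_nonneg_right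
        (le_max_right _ _) (by positivity)) (Real.rpow_nonneg hE _))
  · have h := law2 ω
    simpa only [blocks_eq, blocks2_eq, rep_eq, count_eq, Text.bad_eq, bad2_eq] using h

end Pool.Agent.Helper5.TQ.Text2
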