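import Pool.Agent.Helper5.TQ.Four

/-!
Fourier expansion of the indicator of a block of digits.
-/

namespace Pool.Agent.Helper5.TQ

open Finset Complex
open Pool.Agent.Helper16.NM (ee ee_zero ee_add norm_ee ee_neg ee_pow sum_ee_eq_zero r)

/-- the size of the Fourier coefficients -/
noncomputable def kap (M h : ℕ) : ℝ := 1 / (M * Real.sin (Real.pi * h / M))

theorem kap_zero (M : ℕ) : kap M 0 = 0 := by simp [kap]

theorem kap_nonneg {M h : ℕ} (h1 : h ≤ M) : 0 ≤ kap M h := by
  unfold kap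
  rcases Nat.eq_zero_or_pos M with hM | hM
  · subst hM; simp
  have hM' : (0 : ℝ) < M := by exact_mod_cast hM
  have h2 : (h : ℝ) ≤ M := by exact_mod_cast h1
  have : 0 ≤ Real.sin (Real.pi * h / M) := by
    apply Real.sin_nonneg_of_nonneg_of_le_pi
    · positivity
    · rw [div_le_iff₀ hM']
      exact mul_le_mul_of_nonneg_left h2 Real.pi_pos.le
  positivity

theorem kap_mul {b : ℕ} (hb : 0 < b) (N h : ℕ) : kap (b * N) (b * h) = kap N h / b := by
  unfold kap
  have hb' : (b : ℝ) ≠ 0 := by exact_mod_cast hb.ne'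
  push_cast
  rw [show Real.pi * (b * h) / (b * N) = Real.pi * h / N by
    rw [show Real.pi * (b * h : ℝ) = b * (Real.pi * h) by ring, mul_div_mul_left _ _ hb']]
  rw [div_div]
  congr 1
  ring

theorem kap_le_left {M h : ℕ} (h0 : 0 < h) (h1 : 2 * h ≤ M) : kap M h ≤ 1 / h := by
  unfold kap
  have hM : 0 < M := by omega
  have hM' : (0 : ℝ) < M := by exact_mod_cast hM
  have h0' : (0 : ℝ) < h := by exact_mod_cast h0
  have h2 : (2 : ℝ) * h ≤ M := by exact_mod_cast h1
  have h3 : 2 / Real.pi * (Real.pi * h / M) ≤ Real.sin (Real.pi * h / M) := by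
    apply Real.mul_le_sin
    · positivity
    · rw [div_le_div_iff₀ hM' two_pos]
      nlinarith [Real.pi_pos]
  have h4 : 2 / Real.pi * (Real.pi * h / M) = 2 * h / M := by
    field_simp
  rw [h4] at h3
  apply one_div_le_one_div_of_le h0'
  calc (h : ℝ) ≤ 2 * h := by linarith
    _ = M * (2 * h / M) := by field_simp
    _ ≤ _ := mul_le_mul_of_nonneg_left h3 hM'.le

theorem kap_symm {M h : ℕ} (h1 : h ≤ M) (hM : 0 < M) : kap M (M - h) = kap M h := by
  unfold kap
  have hM' : (M : ℝ) ≠ 0 := by exact_mod_cast hM.ne'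
  rw [Nat.cast_sub h1]
  rw [show Real.pi * (M - h : ℝ) / M = Real.pi - Real.pi * h / M by field_simp]
  rw [Real.sin_pi_sub]

/-- the terms of `Z` -/
noncomputable def zt (n : ℕ) : ℝ := (1 / ((n : ℝ) + 1)) ^ (4 / 3 : ℝ)

theorem zt_nonneg (n : ℕ) : 0 ≤ zt n := by unfold zt; positivity

theorem zt_summable : Summable zt := by
  have h := (Real.summable_one_div_nat_rpow (p := 4 / 3)).2 (by norm_num)
  have h2 := (summable_nat_add_iff 1).2 h
  refine h2.congr fun n => ?_
  unfold zt
  rw [Real.div_rpow zero_le_one (by positivity), Real.one_rpow]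
  push_cast
  rfl

theorem kap_pow_le {M n : ℕ} (h : n + 1 < M) :
    kap M (n + 1) ^ (4 / 3 : ℝ) ≤ zt n + zt (M - 1 - 1 - n) := by
  have h0 : 0 ≤ kap M (n + 1) := kap_nonneg h.le
  by_cases h1 : 2 * (n + 1) ≤ M
  · have h2 := kap_le_left (Nat.succ_pos n) h1
    have h3 : kap M (n + 1) ^ (4 / 3 : ℝ) ≤ zt n := by
      unfold zt
      apply Real.rpow_le_rpow h0 _ (by norm_num)
      push_cast at h2
      exact h2
    linarith [zt_nonneg (M - 1 - 1 - n)]
  · have h4 := kap_symm h.le (by omega : 0 < M)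
    have h2 := kap_le_left (M := M) (h := M - (n + 1)) (by omega) (by omega)
    rw [h4] at h2
    have h3 : kap M (n + 1) ^ (4 / 3 : ℝ) ≤ zt (M - 1 - 1 - n) := by
      unfold zt
      apply Real.rpow_le_rpow h0 _ (by norm_num)
      have e : (((M - (n + 1) : ℕ) : ℝ)) = ((M - 1 - 1 - n : ℕ) : ℝ) + 1 := by
        have : M - (n + 1) = (M - 1 - 1 - n) + 1 := by omega
        rw [this]
        push_cast
        rfl
      rw [e] at h2
      exact h2
    linarith [zt_nonneg n]

theorem sum_kap_pow (M : ℕ) (hM : 0 < M) :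
    ∑ h ∈ range M, kap M h ^ (4 / 3 : ℝ) ≤ 2 * ∑' n, zt n := by
  obtain ⟨m, rfl⟩ : ∃ m, M = m + 1 := ⟨M - 1, by omega⟩
  rw [Finset.sum_range_succ', kap_zero, Real.zero_rpow (by norm_num), add_zero]
  have h1 : ∀ n ∈ range m, kap (m + 1) (n + 1) ^ (4 / 3 : ℝ) ≤ zt n + zt (m - 1 - n) := by
    intro n hn
    have := kap_pow_le (M := m + 1) (n := n) (by have := Finset.mem_range.1 hn; omega)
    simpa using this
  refine (Finset.sum_le_sum h1).trans ?_
  rw [Finset.sum_add_distrib, Finset.sum_range_reflect]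
  have := zt_summable.sum_le_tsum (range m) (fun n _ => zt_nonneg n)
  linarith

/-- the indicator of a block of digits is a sum of exponentials -/
theorem digit_fourier {L q : ℕ} (hL : 0 < L) {v : ℕ} (hv : v < q) (a : ℕ) :
    ((L * q : ℕ) : ℂ) * (if a / L % q = v then 1 else 0) =
      ∑ h ∈ range (L * q), (∑ s ∈ range L, ee (L * q) (-(h * (v * L + s)))) *
        ee (L * q) (h * a) := by
  set M := L * q with hMdef
  have hq : 0 < q := by omega
  have hM : 0 < M := Nat.mul_pos hL hq
  have h1 : ∑ h ∈ range M, (∑ s ∈ range L, ee M (-(h * (v * L + s)))) * ee M (h * a) =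
      ∑ s ∈ range L, ∑ h ∈ range M, ee M (((a : ℤ) - (v * L + s)) * h) := by
    rw [Finset.sum_comm]
    refine Finset.sum_congr rfl fun h _ => ?_
    rw [Finset.sum_mul]
    refine Finset.sum_congr rfl fun s _ => ?_
    rw [← ee_add]
    congr 1
    ring
  rw [h1]
  have h2 : ∀ s ∈ range L, ∑ h ∈ range M, ee M (((a : ℤ) - (v * L + s)) * h) =
      if a % M = v * L + s then (M : ℂ) else 0 := by
    intro s hs
    have hs' := Finset.mem_range.1 hs
    have hlt : v * L + s < M := by
      calc v * L + s < v * L + L := by omega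
        _ = L * (v + 1) := by ring
        _ ≤ L * q := Nat.mul_le_mul_left _ hv
    split_ifs with h
    · have h3 : (M : ℤ) ∣ (a : ℤ) - (v * L + s) := by
        have e : (v * L + s : ℤ) = ((a % M : ℕ) : ℤ) := by rw [h]; push_cast; ring
        rw [e]
        push_cast
        exact Int.dvd_self_sub_emod
      obtain ⟨c, hc⟩ := h3
      have h4 : ∀ m ∈ range M, ee M (((a : ℤ) - (v * L + s)) * m) = 1 := by
        intro m _
        rw [hc]
        unfold ee
        rw [Complex.exp_eq_one_iff]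
        refine ⟨c * m, ?_⟩
        have hN' : (M : ℂ) ≠ 0 := by exact_mod_cast hM.ne'
        push_cast
        field_simp
      rw [Finset.sum_congr rfl h4]
      simp
    · apply sum_ee_eq_zero hM
      intro h3
      apply h
      have h5 : ((v * L + s : ℕ) : ℤ) ≡ (a : ℤ) [ZMOD M] := by
        rw [Int.modEq_iff_dvd]
        push_cast
        exact h3
      have h6 : (v * L + s) ≡ a [MOD M] := Int.natCast_modEq_iff.1 h5
      have h7 : (v * L + s) % M = a % M := h6
      rw [Nat.mod_eq_of_lt hlt] at h7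
      exact h7.symm
  rw [Finset.sum_congr rfl h2]
  have h3 : a % M / L = a / L % q := by
    rw [hMdef, Nat.mod_mul_right_div_self]
  by_cases hd : a / L % q = v
  · rw [if_pos hd, mul_one]
    rw [Finset.sum_eq_single_of_mem (a % M % L)]
    · rw [if_pos]
      have := Nat.div_add_mod (a % M) L
      rw [h3, hd] at this
      rw [mul_comm v L]
      omega
    · exact Finset.mem_range.2 (Nat.mod_lt _ hL)
    · intro s hs hne
      rw [if_neg]
      intro e
      apply hne
      rw [e, mul_comm v L, Nat.mul_add_mod, Nat.mod_eq_of_lt (Finset.mem_range.1 hs)]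
  · rw [if_neg hd, mul_zero]
    symm
    apply Finset.sum_eq_zero
    intro s hs
    rw [if_neg]
    intro e
    apply hd
    rw [← h3, e, mul_comm v L, Nat.mul_add_div hL,
      Nat.div_eq_of_lt (Finset.mem_range.1 hs), add_zero]

theorem norm_ee_sub_one (M : ℕ) (h : ℕ) :
    ‖ee M (-(h : ℤ)) - 1‖ = 2 * |Real.sin (Real.pi * h / M)| := by
  unfold ee
  have : (2 * Real.pi * I * (((-(h : ℤ) : ℤ) : ℂ) / (M : ℂ))) =
      I * ((-(2 * (Real.pi * h / M)) : ℝ) : ℂ) := by
    push_cast
    ring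
  rw [this, Complex.norm_exp_I_mul_ofReal_sub_one, Real.norm_eq_abs, abs_mul, abs_two]
  rw [show -(2 * (Real.pi * h / M)) / 2 = -(Real.pi * h / M) by ring, Real.sin_neg, abs_neg]

theorem coef_le {L q v h : ℕ} (hh : h < L * q) (h0 : 0 < h) :
    ‖∑ s ∈ range L, ee (L * q) (-(h * (v * L + s)))‖ ≤ ((L * q : ℕ) : ℝ) * kap (L * q) h := by
  set M := L * q with hMdef
  have hM : 0 < M := by omega
  have hM' : (0 : ℝ) < M := by exact_mod_cast hM
  have h0' : (0 : ℝ) < h := by exact_mod_cast h0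
  have hh' : (h : ℝ) < M := by exact_mod_cast hh
  have hsin : 0 < Real.sin (Real.pi * h / M) := by
    apply Real.sin_pos_of_pos_of_lt_pi
    · have := Real.pi_pos; positivity
    · rw [div_lt_iff₀ hM']
      exact mul_lt_mul_of_pos_left hh' Real.pi_pos
  have e1 : ∑ s ∈ range L, ee M (-(h * (v * L + s))) =
      ee M (-(h * (v * L))) * ∑ s ∈ range L, ee M (-(h : ℤ)) ^ s := by
    rw [Finset.mul_sum]
    refine Finset.sum_congr rfl fun s _ => ?_
    rw [ee_pow, ← ee_add]
    congr 1
    ring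
  rw [e1, norm_mul, norm_ee, one_mul]
  have e2 : (∑ s ∈ range L, ee M (-(h : ℤ)) ^ s) * (ee M (-(h : ℤ)) - 1) =
      ee M (-(h : ℤ)) ^ L - 1 := geom_sum_mul _ _
  have e3 : ‖ee M (-(h : ℤ)) ^ L - 1‖ ≤ 2 := by
    refine (norm_sub_le _ _).trans ?_
    rw [norm_pow, norm_ee, one_pow, norm_one]
    norm_num
  have e4 := congrArg norm e2
  rw [norm_mul, norm_ee_sub_one, abs_of_pos hsin] at e4
  have e5 : (M : ℝ) * kap M h = 1 / Real.sin (Real.pi * h / M) := by
    unfold kap
    field_simp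
  rw [e5, le_div_iff₀ hsin]
  have := e4.le.trans e3
  linarith

/-- the sum over `B` of the centred indicator of a block of digits -/
theorem arc_sum {L q : ℕ} (hL : 0 < L) {v : ℕ} (hv : v < q) (B : Finset ℕ) :
    |∑ a ∈ B, ((if a / L % q = v then (1 : ℝ) else 0) - 1 / q)| ≤
      ∑ h ∈ range (L * q), kap (L * q) h * ‖F B (L * q) h‖ := by
  have hq : 0 < q := by omega
  have hM : 0 < L * q := Nat.mul_pos hL hq
  have hM' : (0 : ℝ) < ((L * q : ℕ) : ℝ) := by exact_mod_cast hM
  have hMc : ((L * q : ℕ) : ℂ) ≠ 0 := by exact_mod_cast hM.ne'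
  set c : ℕ → ℂ := fun h => ∑ s ∈ range L, ee (L * q) (-(h * (v * L + s))) with hc
  have h1 : ((L * q : ℕ) : ℂ) * ∑ a ∈ B, (if a / L % q = v then (1 : ℂ) else 0) =
      ∑ h ∈ range (L * q), c h * F B (L * q) h := by
    rw [Finset.mul_sum, Finset.sum_congr rfl fun a _ => digit_fourier hL hv a, Finset.sum_comm]
    refine Finset.sum_congr rfl fun h _ => ?_
    rw [F, Finset.mul_sum]
  obtain ⟨m, hm⟩ : ∃ m, L * q = m + 1 := ⟨L * q - 1, by omega⟩
  have h2 : ∑ h ∈ range (L * q), c h * F B (L * q) h =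
      ∑ h ∈ range m, c (h + 1) * F B (L * q) ((h + 1 : ℕ) : ℤ) + L * #B := by
    rw [show range (L * q) = range (m + 1) by rw [hm], Finset.sum_range_succ']
    congr 1
    have : c 0 = L := by
      simp only [hc]
      simp [ee_zero]
    rw [this, Nat.cast_zero, F_zero]
  rw [h2] at h1
  have h3 : ((L * q : ℕ) : ℂ) * ∑ a ∈ B, ((if a / L % q = v then (1 : ℂ) else 0) - 1 / q) =
      ∑ h ∈ range m, c (h + 1) * F B (L * q) ((h + 1 : ℕ) : ℤ) := by
    rw [Finset.sum_sub_distrib, mul_sub, h1, Finset.sum_const, nsmul_eq_mul]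
    have hqc : (q : ℂ) ≠ 0 := by exact_mod_cast hq.ne'
    push_cast
    field_simp
    ring
  have h4 : ((L * q : ℕ) : ℝ) * |∑ a ∈ B, ((if a / L % q = v then (1 : ℝ) else 0) - 1 / q)| ≤
      ((L * q : ℕ) : ℝ) * ∑ h ∈ range (L * q), kap (L * q) h * ‖F B (L * q) h‖ := by
    have e1 : ((L * q : ℕ) : ℝ) * |∑ a ∈ B, ((if a / L % q = v then (1 : ℝ) else 0) - 1 / q)| =
        ‖∑ h ∈ range m, c (h + 1) * F B (L * q) ((h + 1 : ℕ) : ℤ)‖ := by
      rw [← h3, norm_mul]
      congr 1
      · rw [Complex.norm_natCast]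
      · rw [← Real.norm_eq_abs, ← Complex.norm_real]
        congr 1
        push_cast
        refine Finset.sum_congr rfl fun a _ => ?_
        split_ifs <;> simp
    rw [e1]
    rw [show range (L * q) = range (m + 1) by rw [hm], Finset.sum_range_succ', kap_zero, zero_mul,
      add_zero, Finset.mul_sum]
    refine (norm_sum_le _ _).trans (Finset.sum_le_sum fun h hh => ?_)
    rw [norm_mul, ← mul_assoc]
    apply mul_le_mul_of_nonneg_right _ (norm_nonneg _)
    have := coef_le (L := L) (q := q) (v := v) (h := h + 1)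
      (by have := Finset.mem_range.1 hh; omega) (Nat.succ_pos h)
    simpa only [hc] using this
  exact le_of_mul_le_mul_left h4 hM'

end Pool.Agent.Helper5.TQ
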