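import Pool.Agent.Helper5.TQ.Arc

/-!
The upper half of the three quarter law.
-/

namespace Pool.Agent.Helper5.TQ

open Finset Complex
open Pool.Agent.Helper16.NM (r)

/-- the number of `i < K` with `floor (a / b^i) mod b^l = v` -/
def cnt (b l v K a : ℕ) : ℕ := #{i ∈ range K | a / b ^ i % b ^ l = v}

/-- all frequencies modulo `M` -/
noncomputable def V (B : Finset ℕ) (M : ℕ) : ℝ := ∑ h ∈ range M, kap M h * ‖F B M h‖

theorem V_nonneg (B : Finset ℕ) (M : ℕ) : 0 ≤ V B M := by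
  unfold V
  exact Finset.sum_nonneg fun h hh =>
    mul_nonneg (kap_nonneg (Finset.mem_range.1 hh).le) (norm_nonneg _)

/-- the new frequencies -/
noncomputable def U (b : ℕ) (B : Finset ℕ) (t : ℕ) : ℝ :=
  ∑ h ∈ (range (b ^ (t + 1))).filter (fun h => ¬ b ∣ h),
    kap (b ^ (t + 1)) h * ‖F B (b ^ (t + 1)) h‖

theorem V_succ {b : ℕ} (hb : 0 < b) (B : Finset ℕ) (t : ℕ) :
    V B (b ^ (t + 1)) = U b B t + V B (b ^ t) / b := by
  have h1 : b ^ (t + 1) = b * b ^ t := by rw [pow_succ, mul_comm]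
  unfold V U
  rw [h1, sum_split hb]
  congr 1
  rw [Finset.sum_div]
  refine Finset.sum_congr rfl fun h _ => ?_
  rw [kap_mul hb, Nat.cast_mul, F_mul_mul hb]
  ring

theorem V_sum {b : ℕ} (hb : 2 ≤ b) (B : Finset ℕ) (K : ℕ) :
    ∑ t ∈ range K, V B (b ^ (t + 1)) + V B (b ^ K) ≤ 2 * ∑ t ∈ range K, U b B t := by
  induction K with
  | zero => simp [V, kap_zero]
  | succ K ih =>
    rw [Finset.sum_range_succ, Finset.sum_range_succ, mul_add]
    have h1 := V_succ (by omega : 0 < b) B K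
    have hb' : (2 : ℝ) ≤ b := by exact_mod_cast hb
    have h2 : V B (b ^ K) / b ≤ V B (b ^ K) / 2 :=
      div_le_div_of_nonneg_left (V_nonneg B _) two_pos hb'
    linarith

/-- Hoelder -/
theorem U_sum {b : ℕ} (hb : 2 ≤ b) {B : Finset ℕ} {K : ℕ} (hB : B ⊆ range (b ^ K)) :
    ∑ t ∈ range K, U b B t ≤ (2 * (∑' n, zt n) * K) ^ (3 / 4 : ℝ) *
      (2 * (b : ℝ) ^ K * ∑ n ∈ range (2 * b ^ K), (r B n : ℝ) ^ 2) ^ (1 / 4 : ℝ) := by
  have hb0 : 0 < b := by omega
  set S : Finset ((_ : ℕ) × ℕ) := (range K).sigma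
    (fun t => (range (b ^ (t + 1))).filter (fun h => ¬ b ∣ h)) with hS
  have h1 : ∑ t ∈ range K, U b B t =
      ∑ x ∈ S, kap (b ^ (x.1 + 1)) x.2 * ‖F B (b ^ (x.1 + 1)) x.2‖ := by
    rw [hS, Finset.sum_sigma]
    rfl
  have hpq : (4 / 3 : ℝ).HolderConjugate 4 := by
    rw [Real.holderConjugate_iff]
    norm_num
  have h2 := Real.inner_le_Lp_mul_Lq S (fun x => kap (b ^ (x.1 + 1)) x.2)
    (fun x => ‖F B (b ^ (x.1 + 1)) x.2‖) hpq
  rw [h1]
  refine h2.trans ?_
  have h3 : ∑ x ∈ S, |kap (b ^ (x.1 + 1)) x.2| ^ (4 / 3 : ℝ) ≤ 2 * (∑' n, zt n) * K := by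
    rw [hS, Finset.sum_sigma]
    have : ∀ t ∈ range K, ∑ h ∈ (range (b ^ (t + 1))).filter (fun h => ¬ b ∣ h),
        |kap (b ^ (t + 1)) h| ^ (4 / 3 : ℝ) ≤ 2 * ∑' n, zt n := by
      intro t _
      refine le_trans ?_ (sum_kap_pow (b ^ (t + 1)) (by positivity))
      refine le_trans (Finset.sum_le_sum_of_subset_of_nonneg (Finset.filter_subset _ _)
        fun h _ _ => by positivity) (le_of_eq ?_)
      refine Finset.sum_congr rfl fun h hh => ?_
      rw [abs_of_nonneg (kap_nonneg (Finset.mem_range.1 hh).le)]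
    refine (Finset.sum_le_sum this).trans (le_of_eq ?_)
    rw [Finset.sum_const, card_range, nsmul_eq_mul]
    ring
  have h4 : ∑ x ∈ S, |‖F B (b ^ (x.1 + 1)) x.2‖| ^ (4 : ℝ) ≤
      2 * (b : ℝ) ^ K * ∑ n ∈ range (2 * b ^ K), (r B n : ℝ) ^ 2 := by
    have e1 : ∑ x ∈ S, |‖F B (b ^ (x.1 + 1)) x.2‖| ^ (4 : ℝ) =
        ∑ t ∈ range K, ∑ h ∈ (range (b ^ (t + 1))).filter (fun h => ¬ b ∣ h),
          ‖F B (b ^ (t + 1)) h‖ ^ 4 := by
      rw [hS, Finset.sum_sigma]
      refine Finset.sum_congr rfl fun t _ => Finset.sum_congr rfl fun h _ => ?_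
      rw [abs_of_nonneg (norm_nonneg _)]
      norm_cast
    rw [e1]
    refine (fourth_sum hb0 B K).trans ?_
    have := fourth (N := b ^ K) (by positivity) hB
    push_cast at this
    exact this
  have h5 : (1 : ℝ) / (4 / 3) = 3 / 4 := by norm_num
  rw [h5]
  apply mul_le_mul
  · exact Real.rpow_le_rpow (Finset.sum_nonneg fun x _ => by positivity) h3 (by norm_num)
  · exact Real.rpow_le_rpow (Finset.sum_nonneg fun x _ => by positivity) h4 (by norm_num)
  · exact Real.rpow_nonneg (Finset.sum_nonneg fun x _ => by positivity) _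
  · have := (Finset.sum_nonneg fun x (_ : x ∈ S) =>
      (by positivity : 0 ≤ |kap (b ^ (x.1 + 1)) x.2| ^ (4 / 3 : ℝ))).trans h3
    exact Real.rpow_nonneg this _

/-- THE INEQUALITY: the mean discrepancy of blocks of digits over a set of given energy -/
theorem upper (b l : ℕ) (hb : 2 ≤ b) (hl : 1 ≤ l) : ∃ C : ℝ, 0 < C ∧
    ∀ (v K : ℕ) (B : Finset ℕ), v < b ^ l → B ⊆ range (b ^ K) →
      |∑ a ∈ B, ((cnt b l v K a : ℝ) - K / (b : ℝ) ^ l)| ≤
        C * (K : ℝ) ^ (3 / 4 : ℝ) *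
          ((b : ℝ) ^ K * ∑ n ∈ range (2 * b ^ K), (r B n : ℝ) ^ 2) ^ (1 / 4 : ℝ) := by
  set Z : ℝ := ∑' n, zt n with hZ
  have hZ0 : 0 ≤ Z := tsum_nonneg zt_nonneg
  refine ⟨(2 * (2 * Z) ^ (3 / 4 : ℝ) + l) * 2 ^ (1 / 4 : ℝ), by positivity,
    fun v K B hv hB => ?_⟩
  have hb0 : 0 < b := by omega
  rcases Nat.eq_zero_or_pos K with hK | hK
  · subst hK
    simp [cnt]
  set En : ℝ := ∑ n ∈ range (2 * b ^ K), (r B n : ℝ) ^ 2 with hEn
  have hEn0 : 0 ≤ En := Finset.sum_nonneg fun n _ => sq_nonneg _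
  have hK1 : (1 : ℝ) ≤ (K : ℝ) ^ (3 / 4 : ℝ) :=
    Real.one_le_rpow (by exact_mod_cast hK) (by norm_num)
  -- the card
  have hcard : (#B : ℝ) ≤ (2 * (b : ℝ) ^ K * En) ^ (1 / 4 : ℝ) := by
    have h := card_le (N := b ^ K) (by positivity) hB
    push_cast at h
    have h2 : ((#B : ℝ) ^ 4) ^ (1 / 4 : ℝ) ≤ (2 * (b : ℝ) ^ K * En) ^ (1 / 4 : ℝ) :=
      Real.rpow_le_rpow (by positivity) h (by norm_num)
    rw [← Real.rpow_natCast, ← Real.rpow_mul (Nat.cast_nonneg _)] at h2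
    norm_num at h2 ⊢
    exact h2
  -- one position
  have hone : ∀ i, |∑ a ∈ B, ((if a / b ^ i % b ^ l = v then (1 : ℝ) else 0) - 1 / (b : ℝ) ^ l)| ≤
      if i + l ≤ K then V B (b ^ (i + l - 1 + 1)) else #B := by
    intro i
    split_ifs with h
    · have := arc_sum (L := b ^ i) (q := b ^ l) (by positivity) hv B
      rw [← pow_add] at this
      push_cast at this
      rw [Nat.sub_add_cancel (by omega)]
      exact this
    · refine (Finset.abs_sum_le_sum_abs _ _).trans ?_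
      have e : ∀ a ∈ B, |(if a / b ^ i % b ^ l = v then (1 : ℝ) else 0) - 1 / (b : ℝ) ^ l| ≤ 1 := by
        intro a _
        have h1 : (0 : ℝ) ≤ 1 / (b : ℝ) ^ l := by positivity
        have h2 : 1 / (b : ℝ) ^ l ≤ 1 := by
          rw [div_le_one (by positivity)]
          exact one_le_pow₀ (by exact_mod_cast hb0)
        rw [abs_le]
        split_ifs <;> constructor <;> linarith
      refine (Finset.sum_le_sum e).trans ?_
      simp
  -- exchange
  have hex : ∑ a ∈ B, ((cnt b l v K a : ℝ) - K / (b : ℝ) ^ l) =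
      ∑ i ∈ range K, ∑ a ∈ B,
        ((if a / b ^ i % b ^ l = v then (1 : ℝ) else 0) - 1 / (b : ℝ) ^ l) := by
    rw [Finset.sum_comm]
    refine Finset.sum_congr rfl fun a _ => ?_
    rw [Finset.sum_sub_distrib, Finset.sum_const, card_range, nsmul_eq_mul, cnt,
      Finset.card_filter]
    push_cast
    ring
  rw [hex]
  refine (Finset.abs_sum_le_sum_abs _ _).trans ((Finset.sum_le_sum fun i _ => hone i).trans ?_)
  rw [Finset.sum_ite, Finset.sum_const, nsmul_eq_mul]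
  have hA : ∑ i ∈ range K with i + l ≤ K, V B (b ^ (i + l - 1 + 1)) ≤
      ∑ t ∈ range K, V B (b ^ (t + 1)) := by
    have e : ∑ i ∈ range K with i + l ≤ K, V B (b ^ (i + l - 1 + 1)) =
        ∑ t ∈ ((range K).filter (fun i => i + l ≤ K)).image (fun i => i + l - 1),
          V B (b ^ (t + 1)) := by
      rw [Finset.sum_image]
      intro i _ j _ hij
      simp only at hij
      omega
    rw [e]
    apply Finset.sum_le_sum_of_subset_of_nonneg
    · intro t ht
      rw [Finset.mem_image] at ht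
      obtain ⟨i, hi, rfl⟩ := ht
      rw [Finset.mem_filter, Finset.mem_range] at hi
      rw [Finset.mem_range]
      omega
    · intro t _ _
      exact V_nonneg B _
  have hC : (#((range K).filter (fun i => ¬ i + l ≤ K)) : ℝ) ≤ l := by
    have : #((range K).filter (fun i => ¬ i + l ≤ K)) ≤ #(Finset.Ico (K - l) K) := by
      apply Finset.card_le_card
      intro i hi
      rw [Finset.mem_filter, Finset.mem_range] at hi
      rw [Finset.mem_Ico]
      omega
    rw [Nat.card_Ico] at this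
    have h2 : K - (K - l) ≤ l := by omega
    exact_mod_cast this.trans h2
  have hVs := V_sum hb B K
  have hV0 := V_nonneg B (b ^ K)
  have hU := U_sum hb hB
  rw [← hZ, ← hEn] at hU
  have hsplit : (2 * Z * K) ^ (3 / 4 : ℝ) = (2 * Z) ^ (3 / 4 : ℝ) * (K : ℝ) ^ (3 / 4 : ℝ) :=
    Real.mul_rpow (by positivity) (by positivity)
  have hsplit2 : (2 * (b : ℝ) ^ K * En) ^ (1 / 4 : ℝ) =
      2 ^ (1 / 4 : ℝ) * ((b : ℝ) ^ K * En) ^ (1 / 4 : ℝ) := by
    rw [mul_assoc, Real.mul_rpow (by positivity) (by positivity)]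
  set W : ℝ := ((b : ℝ) ^ K * En) ^ (1 / 4 : ℝ) with hW
  have hW0 : 0 ≤ W := by positivity
  rw [hsplit, hsplit2] at hU
  rw [hsplit2] at hcard
  have h7 : (#((range K).filter (fun i => ¬ i + l ≤ K)) : ℝ) * #B ≤
      l * (2 ^ (1 / 4 : ℝ) * W) * (K : ℝ) ^ (3 / 4 : ℝ) := by
    calc _ ≤ (l : ℝ) * (2 ^ (1 / 4 : ℝ) * W) :=
          mul_le_mul hC hcard (Nat.cast_nonneg _) (Nat.cast_nonneg _)
      _ ≤ _ := le_mul_of_one_le_right (by positivity) hK1
  nlinarith [hA, hVs, hV0, hU, h7]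

end Pool.Agent.Helper5.TQ
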