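import Pool.Agent.Helper5.TQ.Four2
import Pool.Agent.Helper5.TQ.Up

/-!
Blocks of digits of the pairs `(a + a', a)`: Fourier expansion and the inequality.
-/

namespace Pool.Agent.Helper5.TQ

open Finset Complex
open Pool.Agent.Helper16.NM (ee ee_zero ee_add norm_ee ee_neg ee_pow sum_ee_eq_zero r)

/-- the size of the coefficients, with the frequency `0` -/
noncomputable def kk (M h : ℕ) : ℝ := if h = 0 then 1 else kap M h

theorem kk_nonneg {M h : ℕ} (h1 : h ≤ M) : 0 ≤ kk M h := by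
  unfold kk
  split_ifs
  · exact zero_le_one
  · exact kap_nonneg h1

/-- the size of the coefficients in two variables -/
noncomputable def kk2 (M h h' : ℕ) : ℝ := if h = 0 ∧ h' = 0 then 0 else kk M h * kk M h'

theorem kk2_nonneg {M h h' : ℕ} (h1 : h ≤ M) (h2 : h' ≤ M) : 0 ≤ kk2 M h h' := by
  unfold kk2
  split_ifs
  · exact le_rfl
  · exact mul_nonneg (kk_nonneg h1) (kk_nonneg h2)

theorem kk2_mul {b : ℕ} (hb : 0 < b) {N h h' : ℕ} (h1 : h ≤ N) (h2 : h' ≤ N) :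
    kk2 (b * N) (b * h) (b * h') ≤ kk2 N h h' / b := by
  have hb' : (1 : ℝ) ≤ b := by exact_mod_cast hb
  have hb0 : (0 : ℝ) < b := by linarith
  unfold kk2 kk
  rcases Nat.eq_zero_or_pos h with e1 | e1 <;> rcases Nat.eq_zero_or_pos h' with e2 | e2
  · subst e1; subst e2
    simp
  · subst e1
    rw [mul_zero, if_neg (by simp; omega), if_pos rfl, if_neg (by positivity), if_neg (by omega),
      if_pos rfl, if_neg (by omega), kap_mul hb]
    rw [one_mul, one_mul]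
  · subst e2
    rw [mul_zero, if_neg (by simp; omega), if_pos rfl, if_neg (by positivity), if_neg (by omega),
      if_pos rfl, if_neg (by omega), kap_mul hb]
    rw [mul_one, mul_one]
  · rw [if_neg (by simp; omega), if_neg (by positivity), if_neg (by positivity),
      if_neg (by omega), if_neg (by omega), if_neg (by omega), kap_mul hb, kap_mul hb]
    have hk1 := kap_nonneg h1
    have hk2 := kap_nonneg h2
    rw [div_mul_div_comm]
    apply div_le_div_of_nonneg_left (mul_nonneg hk1 hk2) hb0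
    nlinarith

theorem sum_kk_pow (M : ℕ) (hM : 0 < M) :
    ∑ h ∈ range M, kk M h ^ (4 / 3 : ℝ) ≤ 1 + 2 * ∑' n, zt n := by
  have h1 : ∀ h ∈ range M, kk M h ^ (4 / 3 : ℝ) ≤
      (if h = 0 then 1 else 0) + kap M h ^ (4 / 3 : ℝ) := by
    intro h hh
    unfold kk
    have := kap_nonneg (Finset.mem_range.1 hh).le
    split_ifs with h0
    · rw [Real.one_rpow]
      have : 0 ≤ kap M h ^ (4 / 3 : ℝ) := by positivity
      linarith
    · rw [zero_add]
  refine (Finset.sum_le_sum h1).trans ?_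
  rw [Finset.sum_add_distrib]
  have h2 : ∑ h ∈ range M, (if h = 0 then (1 : ℝ) else 0) ≤ 1 := by
    rw [Finset.sum_ite_eq' (range M) 0 (fun _ => (1 : ℝ))]
    split_ifs <;> norm_num
  linarith [sum_kap_pow M hM]

theorem sum_kk2_pow (M : ℕ) (hM : 0 < M) (S : Finset (ℕ × ℕ)) (hS : S ⊆ range M ×ˢ range M) :
    ∑ x ∈ S, |kk2 M x.1 x.2| ^ (4 / 3 : ℝ) ≤ (1 + 2 * ∑' n, zt n) ^ 2 := by
  have h1 : ∀ x ∈ range M ×ˢ range M, |kk2 M x.1 x.2| ^ (4 / 3 : ℝ) ≤
      kk M x.1 ^ (4 / 3 : ℝ) * kk M x.2 ^ (4 / 3 : ℝ) := by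
    intro x hx
    rw [Finset.mem_product, Finset.mem_range, Finset.mem_range] at hx
    have e1 := kk_nonneg hx.1.le
    have e2 := kk_nonneg hx.2.le
    rw [← Real.mul_rpow e1 e2]
    apply Real.rpow_le_rpow (abs_nonneg _) _ (by norm_num)
    rw [abs_of_nonneg (kk2_nonneg hx.1.le hx.2.le)]
    unfold kk2
    split_ifs
    · exact mul_nonneg e1 e2
    · exact le_rfl
  refine (Finset.sum_le_sum_of_subset_of_nonneg hS fun x _ _ => by positivity).trans ?_
  refine (Finset.sum_le_sum h1).trans ?_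
  rw [Finset.sum_product' (range M) (range M)
    (fun h h' => kk M h ^ (4 / 3 : ℝ) * kk M h' ^ (4 / 3 : ℝ)), ← Finset.sum_mul_sum, sq]
  have h2 := sum_kk_pow M hM
  have h3 : 0 ≤ ∑ h ∈ range M, kk M h ^ (4 / 3 : ℝ) := Finset.sum_nonneg fun h hh =>
    Real.rpow_nonneg (kk_nonneg (Finset.mem_range.1 hh).le) _
  exact mul_le_mul h2 h2 h3 (h3.trans h2)

theorem coef_le' {L q v h : ℕ} (hh : h < L * q) :
    ‖∑ s ∈ range L, ee (L * q) (-(h * (v * L + s)))‖ ≤ ((L * q : ℕ) : ℝ) * kk (L * q) h := by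
  unfold kk
  split_ifs with h0
  · subst h0
    have hq : 0 < q := by
      rcases Nat.eq_zero_or_pos q with hq | hq
      · subst hq; omega
      · exact hq
    refine (norm_sum_le _ _).trans ?_
    simp only [norm_ee, Finset.sum_const, card_range, nsmul_eq_mul, mul_one]
    exact_mod_cast Nat.le_mul_of_pos_right L hq
  · exact coef_le hh (Nat.pos_of_ne_zero h0)

/-- the sum over `P` of the centred indicator of a pair of blocks of digits -/
theorem arc_sum2 {L q : ℕ} (hL : 0 < L) {u v : ℕ} (hu : u < q) (hv : v < q)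
    (P : Finset (ℕ × ℕ)) :
    |∑ p ∈ P, ((if (p.1 + p.2) / L % q = u ∧ p.1 / L % q = v then (1 : ℝ) else 0)
      - 1 / (q : ℝ) ^ 2)| ≤
      ∑ h ∈ range (L * q), ∑ h' ∈ range (L * q), kk2 (L * q) h h' * ‖F2 P (L * q) h h'‖ := by
  have hq : 0 < q := by omega
  have hM : 0 < L * q := Nat.mul_pos hL hq
  have hM' : (0 : ℝ) < ((L * q : ℕ) : ℝ) := by exact_mod_cast hM
  set c : ℕ → ℂ := fun h => ∑ s ∈ range L, ee (L * q) (-(h * (u * L + s))) with hc
  set c' : ℕ → ℂ := fun h => ∑ s ∈ range L, ee (L * q) (-(h * (v * L + s))) with hc'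
  have hc0 : c 0 = L := by simp only [hc]; simp [ee_zero]
  have hc0' : c' 0 = L := by simp only [hc']; simp [ee_zero]
  have h1 : ((L * q : ℕ) : ℂ) ^ 2 *
      ∑ p ∈ P, (if (p.1 + p.2) / L % q = u ∧ p.1 / L % q = v then (1 : ℂ) else 0) =
      ∑ h ∈ range (L * q), ∑ h' ∈ range (L * q), c h * c' h' * F2 P (L * q) h h' := by
    have e1 : ∀ p ∈ P, ((L * q : ℕ) : ℂ) ^ 2 *
        (if (p.1 + p.2) / L % q = u ∧ p.1 / L % q = v then (1 : ℂ) else 0) =
        ∑ h ∈ range (L * q), ∑ h' ∈ range (L * q),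
          c h * c' h' * ee (L * q) (h * (p.1 + p.2) + h' * p.1) := by
      intro p _
      have e2 := digit_fourier hL hu (p.1 + p.2)
      have e3 := digit_fourier hL hv p.1
      have e4 : ((L * q : ℕ) : ℂ) ^ 2 *
          (if (p.1 + p.2) / L % q = u ∧ p.1 / L % q = v then (1 : ℂ) else 0) =
          (((L * q : ℕ) : ℂ) * (if (p.1 + p.2) / L % q = u then (1 : ℂ) else 0)) *
          (((L * q : ℕ) : ℂ) * (if p.1 / L % q = v then (1 : ℂ) else 0)) := by
        by_cases ha : (p.1 + p.2) / L % q = u <;> by_cases hb : p.1 / L % q = v <;>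
          simp [ha, hb, sq]
      rw [e4, e2, e3, Finset.sum_mul_sum]
      refine Finset.sum_congr rfl fun h _ => Finset.sum_congr rfl fun h' _ => ?_
      rw [ee_add]
      simp only [hc, hc']
      push_cast
      ring
    rw [Finset.mul_sum, Finset.sum_congr rfl e1, Finset.sum_comm]
    refine Finset.sum_congr rfl fun h _ => ?_
    rw [Finset.sum_comm]
    refine Finset.sum_congr rfl fun h' _ => ?_
    exact (Finset.mul_sum P _ (c h * c' h')).symm
  have h3 : ((L * q : ℕ) : ℂ) ^ 2 * ∑ p ∈ P,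
      ((if (p.1 + p.2) / L % q = u ∧ p.1 / L % q = v then (1 : ℂ) else 0) - 1 / (q : ℂ) ^ 2) =
      ∑ h ∈ range (L * q), ∑ h' ∈ range (L * q),
        (if h = 0 ∧ h' = 0 then 0 else c h * c' h') * F2 P (L * q) h h' := by
    rw [Finset.sum_sub_distrib, mul_sub, h1, Finset.sum_const, nsmul_eq_mul]
    have hqc : (q : ℂ) ≠ 0 := by exact_mod_cast hq.ne'
    have e5 : ((L * q : ℕ) : ℂ) ^ 2 * (#P * (1 / (q : ℂ) ^ 2)) =
        ∑ h ∈ range (L * q), ∑ h' ∈ range (L * q),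
          (if h = 0 ∧ h' = 0 then c h * c' h' else 0) * F2 P (L * q) h h' := by
      rw [Finset.sum_eq_single_of_mem 0 (Finset.mem_range.2 hM),
        Finset.sum_eq_single_of_mem 0 (Finset.mem_range.2 hM)]
      · rw [if_pos ⟨rfl, rfl⟩, hc0, hc0', Nat.cast_zero, F2_zero]
        push_cast
        field_simp
      · intro h' _ hne
        rw [if_neg (by tauto), zero_mul]
      · intro h _ hne
        apply Finset.sum_eq_zero
        intro h' _
        rw [if_neg (by tauto), zero_mul]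
    rw [e5, ← Finset.sum_sub_distrib]
    refine Finset.sum_congr rfl fun h _ => ?_
    rw [← Finset.sum_sub_distrib]
    refine Finset.sum_congr rfl fun h' _ => ?_
    split_ifs <;> ring
  have h4 : ((L * q : ℕ) : ℝ) ^ 2 *
      |∑ p ∈ P, ((if (p.1 + p.2) / L % q = u ∧ p.1 / L % q = v then (1 : ℝ) else 0)
        - 1 / (q : ℝ) ^ 2)| ≤
      ((L * q : ℕ) : ℝ) ^ 2 * ∑ h ∈ range (L * q), ∑ h' ∈ range (L * q),
        kk2 (L * q) h h' * ‖F2 P (L * q) h h'‖ := by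
    have e1 : ((L * q : ℕ) : ℝ) ^ 2 *
        |∑ p ∈ P, ((if (p.1 + p.2) / L % q = u ∧ p.1 / L % q = v then (1 : ℝ) else 0)
          - 1 / (q : ℝ) ^ 2)| =
        ‖∑ h ∈ range (L * q), ∑ h' ∈ range (L * q),
          (if h = 0 ∧ h' = 0 then 0 else c h * c' h') * F2 P (L * q) h h'‖ := by
      rw [← h3, norm_mul]
      congr 1
      · rw [norm_pow, Complex.norm_natCast]
      · rw [← Real.norm_eq_abs, ← Complex.norm_real]
        congr 1
        push_cast
        refine Finset.sum_congr rfl fun p _ => ?_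
        split_ifs <;> simp
    rw [e1, Finset.mul_sum]
    refine (norm_sum_le _ _).trans (Finset.sum_le_sum fun h hh => ?_)
    rw [Finset.mul_sum]
    refine (norm_sum_le _ _).trans (Finset.sum_le_sum fun h' hh' => ?_)
    rw [norm_mul, ← mul_assoc]
    apply mul_le_mul_of_nonneg_right _ (norm_nonneg _)
    unfold kk2
    split_ifs with h0
    · simp
    · rw [norm_mul]
      have f1 : ‖c h‖ ≤ ((L * q : ℕ) : ℝ) * kk (L * q) h := coef_le' (Finset.mem_range.1 hh)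
      have f2 : ‖c' h'‖ ≤ ((L * q : ℕ) : ℝ) * kk (L * q) h' := coef_le' (Finset.mem_range.1 hh')
      calc ‖c h‖ * ‖c' h'‖ ≤ (((L * q : ℕ) : ℝ) * kk (L * q) h) *
            (((L * q : ℕ) : ℝ) * kk (L * q) h') :=
            mul_le_mul f1 f2 (norm_nonneg _) ((norm_nonneg _).trans f1)
        _ = _ := by ring
  exact le_of_mul_le_mul_left h4 (by positivity)

/-- the number of `i < K` with `floor (n/b^i) mod b^l = u`, `floor (a/b^i) mod b^l = v` -/
def cnt2 (b l u v K n a : ℕ) : ℕ :=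
  #{i ∈ range K | n / b ^ i % b ^ l = u ∧ a / b ^ i % b ^ l = v}

/-- all frequencies modulo `M` -/
noncomputable def V2 (P : Finset (ℕ × ℕ)) (M : ℕ) : ℝ :=
  ∑ h ∈ range M, ∑ h' ∈ range M, kk2 M h h' * ‖F2 P M h h'‖

theorem V2_nonneg (P : Finset (ℕ × ℕ)) (M : ℕ) : 0 ≤ V2 P M := by
  unfold V2
  exact Finset.sum_nonneg fun h hh => Finset.sum_nonneg fun h' hh' =>
    mul_nonneg (kk2_nonneg (Finset.mem_range.1 hh).le (Finset.mem_range.1 hh').le) (norm_nonneg _)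

/-- the new frequencies -/
noncomputable def U2 (b : ℕ) (P : Finset (ℕ × ℕ)) (t : ℕ) : ℝ :=
  ∑ x ∈ newf b (b ^ (t + 1)), kk2 (b ^ (t + 1)) x.1 x.2 * ‖F2 P (b ^ (t + 1)) x.1 x.2‖

theorem V2_succ {b : ℕ} (hb : 0 < b) (P : Finset (ℕ × ℕ)) (t : ℕ) :
    V2 P (b ^ (t + 1)) ≤ U2 b P t + V2 P (b ^ t) / b := by
  have h1 : b ^ (t + 1) = b * b ^ t := by rw [pow_succ, mul_comm]
  unfold V2 U2
  rw [h1, sum_split2 hb]
  refine add_le_add le_rfl ?_
  rw [Finset.sum_div]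
  refine Finset.sum_le_sum fun h hh => ?_
  rw [Finset.sum_div]
  refine Finset.sum_le_sum fun h' hh' => ?_
  rw [Nat.cast_mul, Nat.cast_mul, F2_mul_mul hb]
  have := kk2_mul hb (Finset.mem_range.1 hh).le (Finset.mem_range.1 hh').le
  calc _ ≤ kk2 (b ^ t) h h' / b * ‖F2 P (b ^ t) h h'‖ :=
        mul_le_mul_of_nonneg_right this (norm_nonneg _)
    _ = _ := by ring

theorem V2_sum {b : ℕ} (hb : 2 ≤ b) (P : Finset (ℕ × ℕ)) (K : ℕ) :
    ∑ t ∈ range K, V2 P (b ^ (t + 1)) + V2 P (b ^ K) ≤ 2 * ∑ t ∈ range K, U2 b P t := by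
  induction K with
  | zero => simp [V2, kk2]
  | succ K ih =>
    rw [Finset.sum_range_succ, Finset.sum_range_succ, mul_add]
    have h1 := V2_succ (by omega : 0 < b) P K
    have hb' : (2 : ℝ) ≤ b := by exact_mod_cast hb
    have h2 : V2 P (b ^ K) / b ≤ V2 P (b ^ K) / 2 :=
      div_le_div_of_nonneg_left (V2_nonneg P _) two_pos hb'
    linarith

/-- Hoelder -/
theorem U2_sum {b : ℕ} (hb : 2 ≤ b) {P : Finset (ℕ × ℕ)} {B : Finset ℕ} {K : ℕ}
    (hB : B ⊆ range (b ^ K)) (hP : P ⊆ B ×ˢ B) :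
    ∑ t ∈ range K, U2 b P t ≤ ((1 + 2 * ∑' n, zt n) ^ 2 * K) ^ (3 / 4 : ℝ) *
      ((4 * (b : ℝ) ^ K) * (2 * (b : ℝ) ^ K) *
        (∑ n ∈ range (2 * b ^ K), (r B n : ℝ) ^ 2) ^ 2) ^ (1 / 4 : ℝ) := by
  have hb0 : 0 < b := by omega
  set S : Finset ((_ : ℕ) × (ℕ × ℕ)) := (range K).sigma (fun t => newf b (b ^ (t + 1))) with hS
  have h1 : ∑ t ∈ range K, U2 b P t =
      ∑ x ∈ S, kk2 (b ^ (x.1 + 1)) x.2.1 x.2.2 * ‖F2 P (b ^ (x.1 + 1)) x.2.1 x.2.2‖ := by
    rw [hS, Finset.sum_sigma]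
    rfl
  have hpq : (4 / 3 : ℝ).HolderConjugate 4 := by
    rw [Real.holderConjugate_iff]
    norm_num
  have h2 := Real.inner_le_Lp_mul_Lq S (fun x => kk2 (b ^ (x.1 + 1)) x.2.1 x.2.2)
    (fun x => ‖F2 P (b ^ (x.1 + 1)) x.2.1 x.2.2‖) hpq
  rw [h1]
  refine h2.trans ?_
  have h3 : ∑ x ∈ S, |kk2 (b ^ (x.1 + 1)) x.2.1 x.2.2| ^ (4 / 3 : ℝ) ≤
      (1 + 2 * ∑' n, zt n) ^ 2 * K := by
    rw [hS, Finset.sum_sigma]
    have : ∀ t ∈ range K, ∑ x ∈ newf b (b ^ (t + 1)),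
        |kk2 (b ^ (t + 1)) x.1 x.2| ^ (4 / 3 : ℝ) ≤ (1 + 2 * ∑' n, zt n) ^ 2 := by
      intro t _
      exact sum_kk2_pow (b ^ (t + 1)) (by positivity) _ (Finset.filter_subset _ _)
    refine (Finset.sum_le_sum this).trans (le_of_eq ?_)
    rw [Finset.sum_const, card_range, nsmul_eq_mul]
    ring
  have h4 : ∑ x ∈ S, |‖F2 P (b ^ (x.1 + 1)) x.2.1 x.2.2‖| ^ (4 : ℝ) ≤
      (4 * (b : ℝ) ^ K) * (2 * (b : ℝ) ^ K) *
        (∑ n ∈ range (2 * b ^ K), (r B n : ℝ) ^ 2) ^ 2 := by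
    have e1 : ∑ x ∈ S, |‖F2 P (b ^ (x.1 + 1)) x.2.1 x.2.2‖| ^ (4 : ℝ) =
        ∑ t ∈ range K, ∑ x ∈ newf b (b ^ (t + 1)), ‖F2 P (b ^ (t + 1)) x.1 x.2‖ ^ 4 := by
      rw [hS, Finset.sum_sigma]
      refine Finset.sum_congr rfl fun t _ => Finset.sum_congr rfl fun h _ => ?_
      rw [abs_of_nonneg (norm_nonneg _)]
      norm_cast
    rw [e1]
    refine (fourth_sum2 hb0 P K).trans ?_
    have := fourth2 (N := b ^ K) (by positivity) hB hP
    push_cast at this
    exact this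
  have h5 : (1 : ℝ) / (4 / 3) = 3 / 4 := by norm_num
  rw [h5]
  apply mul_le_mul
  · exact Real.rpow_le_rpow (Finset.sum_nonneg fun x _ => by positivity) h3 (by norm_num)
  · exact Real.rpow_le_rpow (Finset.sum_nonneg fun x _ => by positivity) h4 (by norm_num)
  · exact Real.rpow_nonneg (Finset.sum_nonneg fun x _ => by positivity) _
  · positivity

end Pool.Agent.Helper5.TQ
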