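import Pool.Agent.Helper16.NM.Riesz

/-!
Fourth moments of exponential sums over a finite set, frequencies with denominator a power of `b`.
-/

namespace Pool.Agent.Helper5.TQ

open Finset Complex
open Pool.Agent.Helper16.NM (ee ee_zero ee_add norm_ee ee_neg ee_pow sum_ee_eq_zero r)

/-- the exponential sum of `B` at `m / N` -/
noncomputable def F (B : Finset ℕ) (N : ℕ) (m : ℤ) : ℂ := ∑ a ∈ B, ee N (m * a)

theorem F_zero (B : Finset ℕ) (N : ℕ) : F B N 0 = #B := by
  simp [F, ee_zero]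

theorem ee_mul_mul {b : ℕ} (hb : 0 < b) (N : ℕ) (m : ℤ) : ee (b * N) (b * m) = ee N m := by
  unfold ee
  congr 2
  push_cast
  have hb' : (b : ℂ) ≠ 0 := by exact_mod_cast hb.ne'
  rw [mul_div_mul_left _ _ hb']

theorem F_mul_mul {b : ℕ} (hb : 0 < b) (B : Finset ℕ) (N : ℕ) (m : ℤ) :
    F B (b * N) (b * m) = F B N m := by
  unfold F
  refine Finset.sum_congr rfl fun a _ => ?_
  rw [mul_assoc, ee_mul_mul hb]

theorem F_sq {B : Finset ℕ} {X : ℕ} (hB : B ⊆ range X) (N : ℕ) (m : ℤ) :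
    F B N m ^ 2 = ∑ n ∈ range (2 * X), (r B n : ℂ) * ee N (m * n) := by
  have h : ∀ n ∈ range (2 * X), (r B n : ℂ) * ee N (m * n)
      = ∑ p ∈ (B ×ˢ B).filter (fun p => p.1 + p.2 = n), ee N (m * p.1) * ee N (m * p.2) := by
    intro n _
    rw [Finset.sum_congr rfl (g := fun _ => ee N (m * n))
      (fun p hp => by
        rw [← ee_add, ← mul_add]
        congr 2
        have := (Finset.mem_filter.mp hp).2
        exact_mod_cast this)]
    rw [Finset.sum_const, nsmul_eq_mul]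
    rfl
  rw [Finset.sum_congr rfl h, Finset.sum_fiberwise_of_maps_to, sq, F, Finset.sum_mul_sum,
    Finset.sum_product]
  intro p hp
  rw [Finset.mem_product] at hp
  rw [Finset.mem_range]
  have h1 := Finset.mem_range.1 (hB hp.1)
  have h2 := Finset.mem_range.1 (hB hp.2)
  omega

/-- Parseval modulo `N` -/
theorem parseval {N : ℕ} (hN : 0 < N) (w : ℕ → ℝ) :
    ∑ m ∈ range N, ‖∑ n ∈ range (2 * N), (w n : ℂ) * ee N (m * n)‖ ^ 2
      ≤ 2 * N * ∑ n ∈ range (2 * N), w n ^ 2 := by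
  have key : ∀ m : ℕ, ((‖∑ n ∈ range (2 * N), (w n : ℂ) * ee N (m * n)‖ ^ 2 : ℝ) : ℂ) =
      ∑ n ∈ range (2 * N), ∑ k ∈ range (2 * N), (w n : ℂ) * w k * ee N (((n : ℤ) - k) * m) := by
    intro m
    rw [← Complex.normSq_eq_norm_sq, ← Complex.mul_conj, map_sum, Finset.sum_mul_sum]
    refine Finset.sum_congr rfl fun n _ => Finset.sum_congr rfl fun k _ => ?_
    rw [map_mul, Complex.conj_ofReal, ← ee_neg]
    rw [show ((n : ℤ) - k) * m = m * n + -(m * k) by ring, ee_add]
    ring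
  have h1 : ((∑ m ∈ range N, ‖∑ n ∈ range (2 * N), (w n : ℂ) * ee N (m * n)‖ ^ 2 : ℝ) : ℂ) =
      ∑ n ∈ range (2 * N), ∑ k ∈ range (2 * N), (w n : ℂ) * w k *
        ∑ m ∈ range N, ee N (((n : ℤ) - k) * m) := by
    rw [Complex.ofReal_sum, Finset.sum_congr rfl fun m _ => key m, Finset.sum_comm]
    refine Finset.sum_congr rfl fun n _ => ?_
    rw [Finset.sum_comm]
    refine Finset.sum_congr rfl fun k _ => ?_
    rw [Finset.mul_sum]
  have h2 : ∀ n k : ℕ, ∑ m ∈ range N, ee N (((n : ℤ) - k) * m) =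
      ((if n % N = k % N then (N : ℝ) else 0 : ℝ) : ℂ) := by
    intro n k
    by_cases h : n % N = k % N
    · rw [if_pos h]
      have h3 : (N : ℤ) ∣ (n : ℤ) - k := by
        have : (n : ℤ) ≡ k [ZMOD N] := by exact_mod_cast (Int.natCast_modEq_iff.2 h)
        exact (Int.modEq_iff_dvd.1 this.symm)
      obtain ⟨c, hc⟩ := h3
      have h4 : ∀ m ∈ range N, ee N (((n : ℤ) - k) * m) = 1 := by
        intro m _
        rw [hc]
        unfold ee
        rw [Complex.exp_eq_one_iff]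
        refine ⟨c * m, ?_⟩
        have hN' : (N : ℂ) ≠ 0 := by exact_mod_cast hN.ne'
        push_cast
        field_simp
      rw [Finset.sum_congr rfl h4]
      simp
    · rw [if_neg h]
      rw [sum_ee_eq_zero hN]
      · simp
      · intro h3
        apply h
        have : (n : ℤ) ≡ k [ZMOD N] := (Int.modEq_iff_dvd.2 h3).symm
        exact_mod_cast (Int.natCast_modEq_iff.1 this)
  have h3 : ∑ m ∈ range N, ‖∑ n ∈ range (2 * N), (w n : ℂ) * ee N (m * n)‖ ^ 2 =
      ∑ n ∈ range (2 * N), ∑ k ∈ range (2 * N), w n * w k *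
        (if n % N = k % N then (N : ℝ) else 0) := by
    have : ((∑ m ∈ range N, ‖∑ n ∈ range (2 * N), (w n : ℂ) * ee N (m * n)‖ ^ 2 : ℝ) : ℂ) =
      ((∑ n ∈ range (2 * N), ∑ k ∈ range (2 * N), w n * w k *
        (if n % N = k % N then (N : ℝ) else 0) : ℝ) : ℂ) := by
      rw [h1]
      push_cast
      refine Finset.sum_congr rfl fun n _ => Finset.sum_congr rfl fun k _ => ?_
      rw [h2 n k]
    exact_mod_cast this
  rw [h3]
  have hcard : ∀ n : ℕ, (#{k ∈ range (2 * N) | n % N = k % N} : ℝ) = 2 := by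
    intro n
    have : {k ∈ range (2 * N) | n % N = k % N} = {n % N, n % N + N} := by
      ext k
      rw [Finset.mem_filter, Finset.mem_range, Finset.mem_insert, Finset.mem_singleton]
      have hlt := Nat.mod_lt n hN
      constructor
      · rintro ⟨h4, h5⟩
        rw [h5]
        by_cases h6 : k < N
        · left; rw [Nat.mod_eq_of_lt h6]
        · right
          have : k % N = k - N := by
            rw [Nat.mod_eq_sub_mod (by omega), Nat.mod_eq_of_lt (by omega)]
          omega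
      · rintro (h4 | h4)
        · rw [h4]
          exact ⟨by omega, by rw [Nat.mod_mod]⟩
        · rw [h4]
          exact ⟨by omega, by rw [Nat.add_mod_right, Nat.mod_mod]⟩
    rw [this, Finset.card_pair (by omega)]
    norm_num
  have h4 : ∀ n ∈ range (2 * N), ∑ k ∈ range (2 * N), w n * w k *
      (if n % N = k % N then (N : ℝ) else 0) ≤ N * w n ^ 2 +
        ∑ k ∈ range (2 * N), (if n % N = k % N then (N : ℝ) / 2 * w k ^ 2 else 0) := by
    intro n _
    have e1 : ∀ k ∈ range (2 * N), w n * w k * (if n % N = k % N then (N : ℝ) else 0) ≤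
        (if n % N = k % N then (N : ℝ) / 2 * w n ^ 2 else 0) +
        (if n % N = k % N then (N : ℝ) / 2 * w k ^ 2 else 0) := by
      intro k _
      split_ifs
      · have : (0 : ℝ) ≤ N := Nat.cast_nonneg _
        nlinarith [mul_nonneg this (sq_nonneg (w n - w k))]
      · simp
    refine (Finset.sum_le_sum e1).trans ?_
    rw [Finset.sum_add_distrib, ← Finset.sum_filter, Finset.sum_const, nsmul_eq_mul, hcard n]
    apply le_of_eq
    ring
  refine (Finset.sum_le_sum h4).trans ?_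
  rw [Finset.sum_add_distrib, ← Finset.mul_sum, Finset.sum_comm]
  have h5 : ∀ k ∈ range (2 * N), ∑ n ∈ range (2 * N),
      (if n % N = k % N then (N : ℝ) / 2 * w k ^ 2 else 0) = N * w k ^ 2 := by
    intro k _
    rw [← Finset.sum_filter, Finset.sum_const, nsmul_eq_mul]
    have := hcard k
    have e2 : {n ∈ range (2 * N) | n % N = k % N} = {n ∈ range (2 * N) | k % N = n % N} := by
      ext n
      simp [eq_comm]
    rw [e2, this]
    ring
  rw [Finset.sum_congr rfl h5, ← Finset.mul_sum]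
  apply le_of_eq
  ring

/-- the fourth moment over all frequencies modulo `N` -/
theorem fourth {N : ℕ} (hN : 0 < N) {B : Finset ℕ} (hB : B ⊆ range N) :
    ∑ m ∈ range N, ‖F B N m‖ ^ 4 ≤ 2 * N * ∑ n ∈ range (2 * N), (r B n : ℝ) ^ 2 := by
  have h := parseval hN (fun n => (r B n : ℝ))
  refine le_trans (le_of_eq ?_) h
  refine Finset.sum_congr rfl fun m _ => ?_
  rw [show ‖F B N m‖ ^ 4 = ‖F B N m ^ 2‖ ^ 2 by rw [norm_pow]; ring, F_sq hB]
  congr 2

theorem card_le {N : ℕ} (hN : 0 < N) {B : Finset ℕ} (hB : B ⊆ range N) :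
    (#B : ℝ) ^ 4 ≤ 2 * N * ∑ n ∈ range (2 * N), (r B n : ℝ) ^ 2 := by
  refine le_trans ?_ (fourth hN hB)
  have h0 : ‖F B N ((0 : ℕ) : ℤ)‖ ^ 4 = (#B : ℝ) ^ 4 := by
    rw [Nat.cast_zero, F_zero]
    simp
  rw [← h0]
  exact Finset.single_le_sum (f := fun m : ℕ => ‖F B N m‖ ^ 4) (fun i _ => by positivity)
    (Finset.mem_range.2 hN)

/-- splitting the frequencies modulo `b ^ (t + 1)` -/
theorem sum_split {b : ℕ} (hb : 0 < b) (N : ℕ) (g : ℕ → ℝ) :
    ∑ h ∈ range (b * N), g h = ∑ h ∈ (range (b * N)).filter (fun h => ¬ b ∣ h), g h +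
      ∑ h ∈ range N, g (b * h) := by
  rw [← Finset.sum_filter_add_sum_filter_not (range (b * N)) (fun h => ¬ b ∣ h)]
  congr 1
  symm
  apply Finset.sum_bij (fun h _ => b * h)
  · intro h hh
    rw [Finset.mem_filter, Finset.mem_range, not_not]
    exact ⟨Nat.mul_lt_mul_of_pos_left (Finset.mem_range.1 hh) hb, dvd_mul_right _ _⟩
  · intro h _ h' _ e
    exact Nat.eq_of_mul_eq_mul_left hb e
  · intro h hh
    rw [Finset.mem_filter, Finset.mem_range, not_not] at hh
    obtain ⟨h1, c, rfl⟩ := hh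
    exact ⟨c, Finset.mem_range.2 (Nat.lt_of_mul_lt_mul_left h1), rfl⟩
  · intro h _
    rfl

theorem fourth_sum {b : ℕ} (hb : 0 < b) (B : Finset ℕ) (K : ℕ) :
    ∑ t ∈ range K, ∑ h ∈ (range (b ^ (t + 1))).filter (fun h => ¬ b ∣ h),
      ‖F B (b ^ (t + 1)) h‖ ^ 4 ≤ ∑ h ∈ range (b ^ K), ‖F B (b ^ K) h‖ ^ 4 := by
  induction K with
  | zero => simp only [Finset.range_zero, Finset.sum_empty]; positivity
  | succ K ih =>
    rw [Finset.sum_range_succ]
    have h1 : b ^ (K + 1) = b * b ^ K := by rw [pow_succ, mul_comm]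
    have h2 := sum_split hb (b ^ K) (fun h => ‖F B (b * b ^ K) h‖ ^ 4)
    have h3 : ∀ h ∈ range (b ^ K), ‖F B (b * b ^ K) ((b * h : ℕ) : ℤ)‖ ^ 4 =
        ‖F B (b ^ K) h‖ ^ 4 := by
      intro h _
      rw [Nat.cast_mul, F_mul_mul hb]
    rw [Finset.sum_congr rfl h3] at h2
    rw [h1, h2]
    linarith

end Pool.Agent.Helper5.TQ
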