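import Pool.Agent.Helper5.TQ.Four
import Pool.Agent.Helper16.NM.Base

/-!
Fourth moments of exponential sums over sets of pairs.
-/

namespace Pool.Agent.Helper5.TQ

open Finset Complex
open Pool.Agent.Helper16.NM (ee ee_zero ee_add norm_ee ee_neg ee_pow sum_ee_eq_zero r r_eq_zero
  sum_r_sq_eq)

theorem card_class {N : ℕ} (hN : 0 < N) (c n : ℕ) : #{k ∈ range (c * N) | n % N = k % N} = c := by
  have : {k ∈ range (c * N) | n % N = k % N} = (range c).image (fun j => n % N + N * j) := by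
    ext k
    rw [Finset.mem_filter, Finset.mem_range, Finset.mem_image]
    have hlt := Nat.mod_lt n hN
    constructor
    · rintro ⟨h1, h2⟩
      refine ⟨k / N, ?_, ?_⟩
      · rw [Finset.mem_range]
        exact Nat.div_lt_of_lt_mul (by rwa [mul_comm])
      · rw [h2]
        exact Nat.mod_add_div k N
    · rintro ⟨j, hj, rfl⟩
      rw [Finset.mem_range] at hj
      constructor
      · calc n % N + N * j < N + N * j := by omega
          _ = N * (j + 1) := by ring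
          _ ≤ N * c := Nat.mul_le_mul_left _ hj
          _ = c * N := mul_comm _ _
      · rw [Nat.add_mul_mod_self_left, Nat.mod_mod]
  rw [this, Finset.card_image_of_injective, card_range]
  intro i j hij
  simp only [Nat.add_left_cancel_iff] at hij
  exact Nat.eq_of_mul_eq_mul_left hN hij

theorem sum_ee_class {N : ℕ} (hN : 0 < N) (n k : ℕ) :
    ∑ m ∈ range N, ee N (((n : ℤ) - k) * m) = if n % N = k % N then (N : ℂ) else 0 := by
  by_cases h : n % N = k % N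
  · rw [if_pos h]
    have h3 : (N : ℤ) ∣ (n : ℤ) - k := by
      have : (n : ℤ) ≡ k [ZMOD N] := by exact_mod_cast (Int.natCast_modEq_iff.2 h)
      exact (Int.modEq_iff_dvd.1 this.symm)
    obtain ⟨c, hc⟩ := h3
    have h4 : ∀ m ∈ range N, ee N (((n : ℤ) - k) * m) = 1 := by
      intro m _
      rw [hc]
      unfold ee
      rw [Complex.exp_eq_one_iff]
      refine ⟨c * m, ?_⟩
      have hN' : (N : ℂ) ≠ 0 := by exact_mod_cast hN.ne'
      push_cast
      field_simp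
    rw [Finset.sum_congr rfl h4]
    simp
  · rw [if_neg h, sum_ee_eq_zero hN]
    intro h3
    apply h
    have : (n : ℤ) ≡ k [ZMOD N] := (Int.modEq_iff_dvd.2 h3).symm
    exact_mod_cast (Int.natCast_modEq_iff.1 this)

/-- Parseval modulo `N`, complex weights -/
theorem parsevalC {N : ℕ} (hN : 0 < N) (c : ℕ) (w : ℕ → ℂ) :
    ∑ m ∈ range N, ‖∑ n ∈ range (c * N), w n * ee N (m * n)‖ ^ 2
      ≤ c * N * ∑ n ∈ range (c * N), ‖w n‖ ^ 2 := by
  have key : ∀ m : ℕ, ((‖∑ n ∈ range (c * N), w n * ee N (m * n)‖ ^ 2 : ℝ) : ℂ) =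
      ∑ n ∈ range (c * N), ∑ k ∈ range (c * N),
        w n * (starRingEnd ℂ) (w k) * ee N (((n : ℤ) - k) * m) := by
    intro m
    rw [← Complex.normSq_eq_norm_sq, ← Complex.mul_conj, map_sum, Finset.sum_mul_sum]
    refine Finset.sum_congr rfl fun n _ => Finset.sum_congr rfl fun k _ => ?_
    rw [map_mul, ← ee_neg]
    rw [show ((n : ℤ) - k) * m = m * n + -(m * k) by ring, ee_add]
    ring
  have h1 : ((∑ m ∈ range N, ‖∑ n ∈ range (c * N), w n * ee N (m * n)‖ ^ 2 : ℝ) : ℂ) =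
      ∑ n ∈ range (c * N), ∑ k ∈ range (c * N), w n * (starRingEnd ℂ) (w k) *
        (if n % N = k % N then (N : ℂ) else 0) := by
    rw [Complex.ofReal_sum, Finset.sum_congr rfl fun m _ => key m, Finset.sum_comm]
    refine Finset.sum_congr rfl fun n _ => ?_
    rw [Finset.sum_comm]
    refine Finset.sum_congr rfl fun k _ => ?_
    rw [← Finset.mul_sum, sum_ee_class hN]
  have h2 : ∑ m ∈ range N, ‖∑ n ∈ range (c * N), w n * ee N (m * n)‖ ^ 2 =
      ∑ n ∈ range (c * N), ∑ k ∈ range (c * N),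
        (w n * (starRingEnd ℂ) (w k) * (if n % N = k % N then (N : ℂ) else 0)).re := by
    have := congrArg Complex.re h1
    rw [Complex.ofReal_re] at this
    rw [this, Complex.re_sum]
    refine Finset.sum_congr rfl fun n _ => ?_
    rw [Complex.re_sum]
  rw [h2]
  have h4 : ∀ n ∈ range (c * N), ∑ k ∈ range (c * N),
      (w n * (starRingEnd ℂ) (w k) * (if n % N = k % N then (N : ℂ) else 0)).re ≤
        c * N / 2 * ‖w n‖ ^ 2 +
        ∑ k ∈ range (c * N), (if n % N = k % N then (N : ℝ) / 2 * ‖w k‖ ^ 2 else 0) := by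
    intro n _
    have e1 : ∀ k ∈ range (c * N),
        (w n * (starRingEnd ℂ) (w k) * (if n % N = k % N then (N : ℂ) else 0)).re ≤
        (if n % N = k % N then (N : ℝ) / 2 * ‖w n‖ ^ 2 else 0) +
        (if n % N = k % N then (N : ℝ) / 2 * ‖w k‖ ^ 2 else 0) := by
      intro k _
      split_ifs
      · have e2 : (w n * (starRingEnd ℂ) (w k) * (N : ℂ)).re ≤ ‖w n‖ * ‖w k‖ * N := by
          refine (Complex.re_le_norm _).trans (le_of_eq ?_)
          rw [norm_mul, norm_mul, RCLike.norm_conj, Complex.norm_natCast]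
        have : (0 : ℝ) ≤ N := Nat.cast_nonneg _
        nlinarith [mul_nonneg this (sq_nonneg (‖w n‖ - ‖w k‖))]
      · simp
    refine (Finset.sum_le_sum e1).trans ?_
    rw [Finset.sum_add_distrib, ← Finset.sum_filter, Finset.sum_const, nsmul_eq_mul,
      card_class hN c n]
    apply le_of_eq
    ring
  refine (Finset.sum_le_sum h4).trans ?_
  rw [Finset.sum_add_distrib, ← Finset.mul_sum, Finset.sum_comm]
  have h5 : ∀ k ∈ range (c * N), ∑ n ∈ range (c * N),
      (if n % N = k % N then (N : ℝ) / 2 * ‖w k‖ ^ 2 else 0) = c * N / 2 * ‖w k‖ ^ 2 := by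
    intro k _
    rw [← Finset.sum_filter, Finset.sum_const, nsmul_eq_mul]
    have e2 : {n ∈ range (c * N) | n % N = k % N} = {n ∈ range (c * N) | k % N = n % N} := by
      ext n
      simp [eq_comm]
    rw [e2, card_class hN c k]
    ring
  rw [Finset.sum_congr rfl h5, ← Finset.mul_sum]
  apply le_of_eq
  ring

/-- Parseval in two variables -/
theorem parseval2 {N : ℕ} (hN : 0 < N) (c d : ℕ) (w : ℕ → ℕ → ℂ) :
    ∑ m ∈ range N, ∑ m' ∈ range N,
      ‖∑ n ∈ range (c * N), ∑ k ∈ range (d * N), w n k * ee N (m * n + m' * k)‖ ^ 2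
      ≤ (c * N) * (d * N) * ∑ n ∈ range (c * N), ∑ k ∈ range (d * N), ‖w n k‖ ^ 2 := by
  rw [Finset.sum_comm]
  have h1 : ∀ m' ∈ range N, ∑ m ∈ range N,
      ‖∑ n ∈ range (c * N), ∑ k ∈ range (d * N), w n k * ee N (m * n + m' * k)‖ ^ 2 ≤
      c * N * ∑ n ∈ range (c * N), ‖∑ k ∈ range (d * N), w n k * ee N (m' * k)‖ ^ 2 := by
    intro m' _
    refine le_trans (le_of_eq ?_) (parsevalC hN c
      (fun n => ∑ k ∈ range (d * N), w n k * ee N (m' * k)))
    refine Finset.sum_congr rfl fun m _ => ?_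
    congr 2
    refine Finset.sum_congr rfl fun n _ => ?_
    rw [Finset.sum_mul]
    refine Finset.sum_congr rfl fun k _ => ?_
    rw [ee_add]
    ring
  refine (Finset.sum_le_sum h1).trans ?_
  rw [← Finset.mul_sum, mul_assoc (c * N : ℝ)]
  have hcN : (0 : ℝ) ≤ c * N := by positivity
  refine mul_le_mul_of_nonneg_left ?_ hcN
  rw [Finset.sum_comm, Finset.mul_sum]
  exact Finset.sum_le_sum fun n _ => parsevalC hN d (fun k => w n k)

/-- the exponential sum of a set of pairs `(a, a')` at `(m, m') / N`, in the variables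
`a + a'`, `a` -/
noncomputable def F2 (P : Finset (ℕ × ℕ)) (N : ℕ) (m m' : ℤ) : ℂ :=
  ∑ p ∈ P, ee N (m * (p.1 + p.2) + m' * p.1)

theorem F2_zero (P : Finset (ℕ × ℕ)) (N : ℕ) : F2 P N 0 0 = #P := by
  simp [F2, ee_zero]

theorem F2_mul_mul {b : ℕ} (hb : 0 < b) (P : Finset (ℕ × ℕ)) (N : ℕ) (m m' : ℤ) :
    F2 P (b * N) (b * m) (b * m') = F2 P N m m' := by
  unfold F2
  refine Finset.sum_congr rfl fun a _ => ?_
  rw [mul_assoc, mul_assoc, ← mul_add, ee_mul_mul hb]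

/-- pairs of pairs -/
def r2 (P : Finset (ℕ × ℕ)) (k k' : ℕ) : ℕ :=
  #{q ∈ P ×ˢ P | q.1.1 + q.1.2 + (q.2.1 + q.2.2) = k ∧ q.1.1 + q.2.1 = k'}

theorem F2_sq {P : Finset (ℕ × ℕ)} {X : ℕ} (hP : ∀ p ∈ P, p.1 < X ∧ p.2 < X) (N : ℕ)
    (m m' : ℤ) :
    F2 P N m m' ^ 2 = ∑ k ∈ range (4 * X), ∑ k' ∈ range (2 * X),
      (r2 P k k' : ℂ) * ee N (m * k + m' * k') := by
  have h : ∀ x ∈ range (4 * X) ×ˢ range (2 * X), (r2 P x.1 x.2 : ℂ) * ee N (m * x.1 + m' * x.2)
      = ∑ q ∈ (P ×ˢ P).filter (fun q => (q.1.1 + q.1.2 + (q.2.1 + q.2.2), q.1.1 + q.2.1) = x),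
        ee N (m * (q.1.1 + q.1.2) + m' * q.1.1) * ee N (m * (q.2.1 + q.2.2) + m' * q.2.1) := by
    intro x _
    rw [Finset.sum_congr rfl (g := fun _ => ee N (m * x.1 + m' * x.2))
      (fun q hq => by
        rw [← ee_add]
        congr 1
        have := (Finset.mem_filter.mp hq).2
        rw [← this]
        push_cast
        ring)]
    rw [Finset.sum_const, nsmul_eq_mul]
    congr 2
    unfold r2
    congr 1
    ext q
    rw [Finset.mem_filter, Finset.mem_filter, Prod.ext_iff]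
  rw [← Finset.sum_product' (range (4 * X)) (range (2 * X))
    (fun k k' => (r2 P k k' : ℂ) * ee N (m * k + m' * k')), Finset.sum_congr rfl h,
    Finset.sum_fiberwise_of_maps_to, sq, F2, Finset.sum_mul_sum, Finset.sum_product]
  intro q hq
  rw [Finset.mem_product] at hq
  rw [Finset.mem_product, Finset.mem_range, Finset.mem_range]
  have h1 := hP _ hq.1
  have h2 := hP _ hq.2
  dsimp only
  omega

theorem r2_le {P : Finset (ℕ × ℕ)} {B : Finset ℕ} (hP : P ⊆ B ×ˢ B) (k k' : ℕ) :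
    r2 P k k' ≤ if k' ≤ k then r B k' * r B (k - k') else 0 := by
  unfold r2
  split_ifs with h
  · unfold r
    rw [← Finset.card_product]
    apply Finset.card_le_card_of_injOn (fun q => ((q.1.1, q.2.1), (q.1.2, q.2.2)))
    · intro q hq
      rw [Finset.mem_coe, Finset.mem_filter, Finset.mem_product] at hq
      obtain ⟨⟨h1, h2⟩, h3, h4⟩ := hq
      have h5 := Finset.mem_product.1 (hP h1)
      have h6 := Finset.mem_product.1 (hP h2)
      rw [Finset.mem_coe, Finset.mem_product, Finset.mem_filter, Finset.mem_filter,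
        Finset.mem_product, Finset.mem_product]
      refine ⟨⟨⟨h5.1, h6.1⟩, h4⟩, ⟨⟨h5.2, h6.2⟩, ?_⟩⟩
      dsimp only
      omega
    · rintro ⟨⟨a, b⟩, c, d⟩ _ ⟨⟨a', b'⟩, c', d'⟩ _ e
      simp only [Prod.mk.injEq] at e ⊢
      tauto
  · rw [Nat.le_zero, Finset.card_eq_zero, Finset.filter_eq_empty_iff]
    intro q hq hc
    omega

theorem sum_r2 {P : Finset (ℕ × ℕ)} {B : Finset ℕ} {X : ℕ} (hB : B ⊆ range X) (hP : P ⊆ B ×ˢ B) :
    ∑ k ∈ range (4 * X), ∑ k' ∈ range (2 * X), (r2 P k k' : ℝ) ^ 2 ≤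
      (∑ n ∈ range (2 * X), (r B n : ℝ) ^ 2) ^ 2 := by
  rw [Finset.sum_comm]
  have hB' : ∀ a ∈ B, a < X := fun a ha => Finset.mem_range.1 (hB ha)
  have h1 : ∀ k' ∈ range (2 * X), ∑ k ∈ range (4 * X), (r2 P k k' : ℝ) ^ 2 ≤
      (r B k' : ℝ) ^ 2 * ∑ n ∈ range (2 * X), (r B n : ℝ) ^ 2 := by
    intro k' _
    have e1 : ∀ k ∈ range (4 * X), (r2 P k k' : ℝ) ^ 2 ≤
        if k' ≤ k then (r B k' : ℝ) ^ 2 * (r B (k - k') : ℝ) ^ 2 else 0 := by
      intro k _
      have h2 := r2_le hP k k'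
      split_ifs at h2 ⊢ with h3
      · rw [← mul_pow]
        apply pow_le_pow_left₀ (Nat.cast_nonneg _)
        exact_mod_cast h2
      · rw [Nat.le_zero] at h2
        rw [h2]
        simp
    refine (Finset.sum_le_sum e1).trans ?_
    rw [← Finset.sum_filter, ← Finset.mul_sum]
    refine mul_le_mul_of_nonneg_left ?_ (sq_nonneg _)
    rw [← sum_r_sq_eq hB' (by omega : 2 * X ≤ 4 * X)]
    have e2 : ∑ k ∈ range (4 * X) with k' ≤ k, (r B (k - k') : ℝ) ^ 2 =
        ∑ j ∈ ((range (4 * X)).filter (fun k => k' ≤ k)).image (fun k => k - k'),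
          (r B j : ℝ) ^ 2 := by
      rw [Finset.sum_image]
      intro i hi j hj hij
      rw [Finset.mem_coe, Finset.mem_filter] at hi hj
      simp only at hij
      omega
    rw [e2]
    apply Finset.sum_le_sum_of_subset_of_nonneg
    · intro j hj
      rw [Finset.mem_image] at hj
      obtain ⟨i, hi, rfl⟩ := hj
      rw [Finset.mem_filter, Finset.mem_range] at hi
      rw [Finset.mem_range]
      omega
    · intro j _ _
      exact sq_nonneg _
  refine (Finset.sum_le_sum h1).trans (le_of_eq ?_)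
  rw [← Finset.sum_mul, sq]

/-- the fourth moment of a set of pairs of elements of `B` -/
theorem fourth2 {N : ℕ} (hN : 0 < N) {P : Finset (ℕ × ℕ)} {B : Finset ℕ} (hB : B ⊆ range N)
    (hP : P ⊆ B ×ˢ B) :
    ∑ m ∈ range N, ∑ m' ∈ range N, ‖F2 P N m m'‖ ^ 4 ≤
      (4 * N) * (2 * N) * (∑ n ∈ range (2 * N), (r B n : ℝ) ^ 2) ^ 2 := by
  have h := parseval2 hN 4 2 (fun k k' => (r2 P k k' : ℂ))
  refine le_trans (le_of_eq ?_) (h.trans ?_)
  · refine Finset.sum_congr rfl fun m _ => Finset.sum_congr rfl fun m' _ => ?_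
    rw [show ‖F2 P N m m'‖ ^ 4 = ‖F2 P N m m' ^ 2‖ ^ 2 by rw [norm_pow]; ring, F2_sq (X := N)]
    intro p hp
    have := Finset.mem_product.1 (hP hp)
    exact ⟨Finset.mem_range.1 (hB this.1), Finset.mem_range.1 (hB this.2)⟩
  · push_cast
    refine mul_le_mul_of_nonneg_left ?_ (by positivity)
    refine le_trans (le_of_eq ?_) (sum_r2 hB hP)
    refine Finset.sum_congr rfl fun k _ => Finset.sum_congr rfl fun k' _ => ?_
    rw [Complex.norm_natCast]

theorem card_le2 {N : ℕ} (hN : 0 < N) {P : Finset (ℕ × ℕ)} {B : Finset ℕ} (hB : B ⊆ range N)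
    (hP : P ⊆ B ×ˢ B) :
    (#P : ℝ) ^ 4 ≤ (4 * N) * (2 * N) * (∑ n ∈ range (2 * N), (r B n : ℝ) ^ 2) ^ 2 := by
  refine le_trans ?_ (fourth2 hN hB hP)
  have h0 : (#P : ℝ) ^ 4 = ‖F2 P N ((0 : ℕ) : ℤ) ((0 : ℕ) : ℤ)‖ ^ 4 := by
    rw [Nat.cast_zero, F2_zero]
    simp
  have h1 : ‖F2 P N ((0 : ℕ) : ℤ) ((0 : ℕ) : ℤ)‖ ^ 4 ≤
      ∑ m' ∈ range N, ‖F2 P N ((0 : ℕ) : ℤ) m'‖ ^ 4 :=
    Finset.single_le_sum (s := range N) (f := fun m' : ℕ => ‖F2 P N ((0 : ℕ) : ℤ) m'‖ ^ 4)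
      (fun i _ => pow_nonneg (norm_nonneg _) 4) (Finset.mem_range.2 hN)
  have h2 : ∑ m' ∈ range N, ‖F2 P N ((0 : ℕ) : ℤ) m'‖ ^ 4 ≤
      ∑ m ∈ range N, ∑ m' ∈ range N, ‖F2 P N m m'‖ ^ 4 :=
    Finset.single_le_sum (s := range N) (f := fun m : ℕ => ∑ m' ∈ range N, ‖F2 P N m m'‖ ^ 4)
      (fun i _ => Finset.sum_nonneg fun j _ => pow_nonneg (norm_nonneg _) 4)
      (Finset.mem_range.2 hN)
  exact h0.le.trans (h1.trans h2)

/-- the new frequencies modulo `b * N` -/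
def newf (b M : ℕ) : Finset (ℕ × ℕ) := (range M ×ˢ range M).filter fun x => ¬ (b ∣ x.1 ∧ b ∣ x.2)

theorem sum_split2 {b : ℕ} (hb : 0 < b) (N : ℕ) (g : ℕ → ℕ → ℝ) :
    ∑ h ∈ range (b * N), ∑ h' ∈ range (b * N), g h h' = ∑ x ∈ newf b (b * N), g x.1 x.2 +
      ∑ h ∈ range N, ∑ h' ∈ range N, g (b * h) (b * h') := by
  rw [← Finset.sum_product' (range (b * N)) (range (b * N)) g,
    ← Finset.sum_filter_add_sum_filter_not (range (b * N) ×ˢ range (b * N))
      (fun x => ¬ (b ∣ x.1 ∧ b ∣ x.2)), ← Finset.sum_product' (range N) (range N)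
      (fun h h' => g (b * h) (b * h'))]
  congr 1
  symm
  apply Finset.sum_bij (fun x _ => (b * x.1, b * x.2))
  · intro x hx
    rw [Finset.mem_product, Finset.mem_range, Finset.mem_range] at hx
    rw [Finset.mem_filter, not_not, Finset.mem_product, Finset.mem_range, Finset.mem_range]
    exact ⟨⟨Nat.mul_lt_mul_of_pos_left hx.1 hb, Nat.mul_lt_mul_of_pos_left hx.2 hb⟩,
      dvd_mul_right _ _, dvd_mul_right _ _⟩
  · intro x _ y _ e
    rw [Prod.ext_iff] at e ⊢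
    exact ⟨Nat.eq_of_mul_eq_mul_left hb e.1, Nat.eq_of_mul_eq_mul_left hb e.2⟩
  · intro x hx
    rw [Finset.mem_filter, not_not, Finset.mem_product, Finset.mem_range, Finset.mem_range] at hx
    obtain ⟨⟨h1, h2⟩, ⟨c, hc⟩, ⟨d, hd⟩⟩ := hx
    refine ⟨(c, d), ?_, ?_⟩
    · rw [Finset.mem_product, Finset.mem_range, Finset.mem_range]
      rw [hc] at h1
      rw [hd] at h2
      exact ⟨Nat.lt_of_mul_lt_mul_left h1, Nat.lt_of_mul_lt_mul_left h2⟩
    · rw [Prod.ext_iff]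
      exact ⟨hc.symm, hd.symm⟩
  · intro x _
    rfl

theorem fourth_sum2 {b : ℕ} (hb : 0 < b) (P : Finset (ℕ × ℕ)) (K : ℕ) :
    ∑ t ∈ range K, ∑ x ∈ newf b (b ^ (t + 1)), ‖F2 P (b ^ (t + 1)) x.1 x.2‖ ^ 4 ≤
      ∑ h ∈ range (b ^ K), ∑ h' ∈ range (b ^ K), ‖F2 P (b ^ K) h h'‖ ^ 4 := by
  induction K with
  | zero => simp only [Finset.range_zero, Finset.sum_empty]; positivity
  | succ K ih =>
    rw [Finset.sum_range_succ]
    have h1 : b ^ (K + 1) = b * b ^ K := by rw [pow_succ, mul_comm]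
    have h2 := sum_split2 hb (b ^ K) (fun h h' => ‖F2 P (b * b ^ K) h h'‖ ^ 4)
    have h3 : ∀ h ∈ range (b ^ K), ∑ h' ∈ range (b ^ K),
        ‖F2 P (b * b ^ K) ((b * h : ℕ) : ℤ) ((b * h' : ℕ) : ℤ)‖ ^ 4 =
        ∑ h' ∈ range (b ^ K), ‖F2 P (b ^ K) h h'‖ ^ 4 := by
      intro h _
      refine Finset.sum_congr rfl fun h' _ => ?_
      rw [Nat.cast_mul, Nat.cast_mul, F2_mul_mul hb]
    rw [Finset.sum_congr rfl h3] at h2
    rw [h1, h2]
    linarith

end Pool.Agent.Helper5.TQ
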