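import Pool.Agent.Helper5.TQ.Up
import Pool.Agent.Helper87.TQ.Neg

/-!
The three quarter law.
-/

namespace Pool.Agent.Helper5.TQ

open Finset Filter
open Pool.Agent.Helper16.NM (r)
open Pool.Agent.Helper25.RC (below rep mem_below)

/-- the elements of `A` below `b^K` for which the number of blocks `v` differs from the expected
number by at least `w` -/
noncomputable def bad (b l v : ℕ) (A : Set ℕ) (K : ℕ) (w : ℝ) : Finset ℕ :=
  {a ∈ below A (b ^ K) | w ≤ |(cnt b l v K a : ℝ) - K / (b : ℝ) ^ l|}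

theorem r_eq (B : Finset ℕ) (n : ℕ) : r B n = rep (B : Set ℕ) n := by
  classical
  unfold r rep
  congr 1
  ext p
  simp only [Finset.mem_filter, Finset.mem_product, Finset.HasAntidiagonal.mem_antidiagonal,
    Finset.mem_coe]
  tauto

theorem rep_mono {A B : Set ℕ} (h : A ⊆ B) (n : ℕ) : rep A n ≤ rep B n := by
  classical
  unfold rep
  apply Finset.card_le_card
  intro p hp
  rw [Finset.mem_filter] at hp ⊢
  exact ⟨hp.1, h hp.2.1, h hp.2.2⟩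

/-- one sign -/
theorem one_sign {b l : ℕ} (hb : 2 ≤ b) {C₁ : ℝ} (hC₁ : 0 < C₁)
    (hup : ∀ (v K : ℕ) (B : Finset ℕ), v < b ^ l → B ⊆ range (b ^ K) →
      |∑ a ∈ B, ((cnt b l v K a : ℝ) - K / (b : ℝ) ^ l)| ≤
        C₁ * (K : ℝ) ^ (3 / 4 : ℝ) *
          ((b : ℝ) ^ K * ∑ n ∈ range (2 * b ^ K), (r B n : ℝ) ^ 2) ^ (1 / 4 : ℝ))
    {v : ℕ} (hv : v < b ^ l) {A : Set ℕ} {C : ℝ}
    (hA : ∀ x : ℕ, ∑ n ∈ range x, (rep A n : ℝ) ^ 2 ≤ C * x) {K : ℕ} {w : ℝ} (hw : 0 < w)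
    {B : Finset ℕ} (hB : B ⊆ below A (b ^ K)) (σ : ℝ) (hσ : |σ| = 1)
    (hBw : ∀ a ∈ B, w ≤ σ * ((cnt b l v K a : ℝ) - K / (b : ℝ) ^ l)) :
    (#B : ℝ) / √((b : ℝ) ^ K) ≤ C₁ * (2 * |C|) ^ (1 / 4 : ℝ) / (w / (K : ℝ) ^ (3 / 4 : ℝ)) := by
  have hb0 : (0 : ℝ) < (b : ℝ) ^ K := by positivity
  have hBr : B ⊆ range (b ^ K) := fun a ha => Finset.mem_range.2 (mem_below.1 (hB ha)).1
  have h1 := hup v K B hv hBr
  have h2 : #B * w ≤ |∑ a ∈ B, ((cnt b l v K a : ℝ) - K / (b : ℝ) ^ l)| := by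
    calc #B * w = ∑ _a ∈ B, w := by rw [Finset.sum_const, nsmul_eq_mul]
      _ ≤ ∑ a ∈ B, σ * ((cnt b l v K a : ℝ) - K / (b : ℝ) ^ l) := Finset.sum_le_sum hBw
      _ = σ * ∑ a ∈ B, ((cnt b l v K a : ℝ) - K / (b : ℝ) ^ l) := by rw [Finset.mul_sum]
      _ ≤ |σ * ∑ a ∈ B, ((cnt b l v K a : ℝ) - K / (b : ℝ) ^ l)| := le_abs_self _
      _ = _ := by rw [abs_mul, hσ, one_mul]
  have h3 : ∑ n ∈ range (2 * b ^ K), (r B n : ℝ) ^ 2 ≤ 2 * |C| * (b : ℝ) ^ K := by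
    calc ∑ n ∈ range (2 * b ^ K), (r B n : ℝ) ^ 2 ≤ ∑ n ∈ range (2 * b ^ K), (rep A n : ℝ) ^ 2 := by
          refine Finset.sum_le_sum fun n _ => ?_
          have : (r B n : ℝ) ≤ rep A n := by
            rw [r_eq]
            exact_mod_cast rep_mono (fun a ha => (mem_below.1 (hB ha)).2) n
          exact pow_le_pow_left₀ (Nat.cast_nonneg _) this 2
      _ ≤ C * ((2 * b ^ K : ℕ) : ℝ) := hA _
      _ ≤ |C| * ((2 * b ^ K : ℕ) : ℝ) := mul_le_mul_of_nonneg_right (le_abs_self _) (by positivity)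
      _ = _ := by push_cast; ring
  have h4 : ((b : ℝ) ^ K * ∑ n ∈ range (2 * b ^ K), (r B n : ℝ) ^ 2) ^ (1 / 4 : ℝ) ≤
      (2 * |C|) ^ (1 / 4 : ℝ) * √((b : ℝ) ^ K) := by
    have e1 : √((b : ℝ) ^ K) = ((b : ℝ) ^ K * (b : ℝ) ^ K) ^ (1 / 4 : ℝ) := by
      rw [Real.sqrt_eq_rpow, ← sq, ← Real.rpow_natCast ((b : ℝ) ^ K) 2, ← Real.rpow_mul hb0.le]
      norm_num
    rw [e1, ← Real.mul_rpow (by positivity) (by positivity)]
    apply Real.rpow_le_rpow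
    · exact mul_nonneg hb0.le (Finset.sum_nonneg fun n _ => sq_nonneg _)
    · nlinarith [h3, hb0]
    · norm_num
  have hs : 0 < √((b : ℝ) ^ K) := Real.sqrt_pos.2 hb0
  have h5 : #B * w ≤ C₁ * (K : ℝ) ^ (3 / 4 : ℝ) * ((2 * |C|) ^ (1 / 4 : ℝ) * √((b : ℝ) ^ K)) :=
    h2.trans (h1.trans (mul_le_mul_of_nonneg_left h4 (by positivity)))
  rw [div_le_iff₀ hs, div_div_eq_mul_div, div_mul_eq_mul_div, le_div_iff₀ hw]
  calc #B * w ≤ _ := h5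
    _ = _ := by ring

theorem card_bad {b l : ℕ} (hb : 2 ≤ b) (hl : 1 ≤ l) : ∃ C₁ : ℝ, 0 < C₁ ∧
    ∀ (v : ℕ) (_ : v < b ^ l) (A : Set ℕ) (C : ℝ)
      (_ : ∀ x : ℕ, ∑ n ∈ range x, (rep A n : ℝ) ^ 2 ≤ C * x) (K : ℕ) (w : ℝ) (_ : 0 < w),
    (#(bad b l v A K w) : ℝ) / √((b : ℝ) ^ K) ≤
      2 * (C₁ * (2 * |C|) ^ (1 / 4 : ℝ)) / (w / (K : ℝ) ^ (3 / 4 : ℝ)) := by
  obtain ⟨C₁, hC₁, hup⟩ := upper b l hb hl
  refine ⟨C₁, hC₁, fun v hv A C hA K w hw => ?_⟩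
  set P : Finset ℕ := {a ∈ below A (b ^ K) | w ≤ 1 * ((cnt b l v K a : ℝ) - K / (b : ℝ) ^ l)}
  set N : Finset ℕ := {a ∈ below A (b ^ K) | w ≤ -1 * ((cnt b l v K a : ℝ) - K / (b : ℝ) ^ l)}
  have h1 := one_sign hb hC₁ hup hv hA hw (B := P) (Finset.filter_subset _ _) 1 (by simp)
    (fun a ha => (Finset.mem_filter.1 ha).2)
  have h2 := one_sign hb hC₁ hup hv hA hw (B := N) (Finset.filter_subset _ _) (-1) (by simp)
    (fun a ha => (Finset.mem_filter.1 ha).2)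
  have h3 : bad b l v A K w ⊆ P ∪ N := by
    intro a ha
    obtain ⟨h4, h5⟩ := Finset.mem_filter.1 ha
    rw [Finset.mem_union, Finset.mem_filter, Finset.mem_filter]
    rcases le_abs.1 h5 with h6 | h6
    · exact Or.inl ⟨h4, by rwa [one_mul]⟩
    · exact Or.inr ⟨h4, by linarith⟩
  have h4 : (#(bad b l v A K w) : ℝ) ≤ #P + #N := by
    exact_mod_cast (Finset.card_le_card h3).trans (Finset.card_union_le _ _)
  have hs : 0 < √((b : ℝ) ^ K) := Real.sqrt_pos.2 (by positivity)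
  calc (#(bad b l v A K w) : ℝ) / √((b : ℝ) ^ K) ≤ (#P + #N) / √((b : ℝ) ^ K) := by gcongr
    _ = #P / √((b : ℝ) ^ K) + #N / √((b : ℝ) ^ K) := add_div _ _ _
    _ ≤ _ := by
        rw [mul_div_assoc, two_mul]
        linarith

/-- THE THREE QUARTER LAW -/
theorem law (ω : ℕ → ℝ) : List.TFAE [
    Tendsto (fun K : ℕ => ω K / (K : ℝ) ^ (3 / 4 : ℝ)) atTop atTop,
    ∀ b l v : ℕ, 2 ≤ b → 1 ≤ l → v < b ^ l → ∀ (A : Set ℕ) (C : ℝ),
      (∀ x : ℕ, ∑ n ∈ range x, (rep A n : ℝ) ^ 2 ≤ C * x) →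
        Tendsto (fun K : ℕ => (#(bad b l v A K (ω K)) : ℝ) / √((b : ℝ) ^ K)) atTop (nhds 0),
    ∀ (A : Set ℕ) (c C : ℝ), 0 < c → (∀ x : ℕ, 2 ≤ x → c * √x ≤ #(below A x)) →
      (∀ x : ℕ, ∑ n ∈ range x, (rep A n : ℝ) ^ 2 ≤ C * x) →
        ∀ᶠ K : ℕ in atTop, ∃ a ∈ A, a < 2 ^ K ∧ |(cnt 2 1 0 K a : ℝ) - K / 2| < ω K] := by
  tfae_have 1 → 2 := by
    intro h b l v hb hl hv A C hA
    obtain ⟨C₁, hC₁, hcb⟩ := card_bad (b := b) (l := l) hb hl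
    have h1 : Tendsto (fun K : ℕ => 2 * (C₁ * (2 * |C|) ^ (1 / 4 : ℝ)) /
        (ω K / (K : ℝ) ^ (3 / 4 : ℝ))) atTop (nhds 0) := h.const_div_atTop _
    refine squeeze_zero' (Eventually.of_forall fun K => by positivity) ?_ h1
    filter_upwards [h.eventually_gt_atTop 0, eventually_gt_atTop 0] with K hK hK0
    have hK' : (0 : ℝ) < (K : ℝ) ^ (3 / 4 : ℝ) := Real.rpow_pos_of_pos (by exact_mod_cast hK0) _
    have hw : 0 < ω K := by
      have := mul_pos hK hK'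
      rwa [div_mul_cancel₀ _ hK'.ne'] at this
    exact hcb v hv A C hA K (ω K) hw
  tfae_have 2 → 3 := by
    intro h A c C hc hth hA
    have h1 := h 2 1 0 le_rfl le_rfl (by norm_num) A C hA
    have h2 : ∀ᶠ K : ℕ in atTop, (#(bad 2 1 0 A K (ω K)) : ℝ) / √(((2 : ℕ) : ℝ) ^ K) < c :=
      h1.eventually_lt_const hc
    filter_upwards [h2, eventually_ge_atTop 1] with K hK hK1
    by_contra hcon
    push Not at hcon
    have h3 : below A (2 ^ K) ⊆ bad 2 1 0 A K (ω K) := by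
      intro a ha
      obtain ⟨h4, h5⟩ := mem_below.1 ha
      rw [bad, Finset.mem_filter]
      refine ⟨ha, ?_⟩
      have := hcon a h5 h4
      simpa using this
    have h6 := hth (2 ^ K) (by
      calc 2 = 2 ^ 1 := by norm_num
        _ ≤ 2 ^ K := Nat.pow_le_pow_right (by norm_num) hK1)
    have h7 : (#(below A (2 ^ K)) : ℝ) ≤ #(bad 2 1 0 A K (ω K)) := by
      exact_mod_cast Finset.card_le_card h3
    have hs : 0 < √(((2 : ℕ) : ℝ) ^ K) := Real.sqrt_pos.2 (by positivity)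
    rw [div_lt_iff₀ hs] at hK
    push_cast at h6 hK
    linarith
  tfae_have 3 → 1 := by
    intro h
    by_contra hcon
    obtain ⟨A, c, C, hc, h1, h2, h3⟩ := Pool.Agent.Helper87.TQ.neg hcon
    have h4 := h A c C hc h1 h2
    obtain ⟨K, h5, a, h6, h7, h8⟩ := (h3.and_eventually h4).exists
    have := h5 a h6 h7
    have e : (cnt 2 1 0 K a : ℝ) = (#{i ∈ range K | a / 2 ^ i % 2 = 0} : ℝ) := by
      simp [cnt]
    rw [e] at h8
    linarith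
  tfae_finish

end Pool.Agent.Helper5.TQ
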