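import Pool.Agent.Helper5.TQ.Arc2
import Pool.Agent.Helper5.TQ.Main

/-!
The inequality for arbitrary sets of pairs, and the three quarter law for pairs.
-/

namespace Pool.Agent.Helper5.TQ

open Finset Filter
open Pool.Agent.Helper16.NM (r)
open Pool.Agent.Helper25.RC (below rep mem_below)

/-- THE INEQUALITY for arbitrary sets of pairs -/
theorem upper2 (b l : ℕ) (hb : 2 ≤ b) (hl : 1 ≤ l) : ∃ C : ℝ, 0 < C ∧
    ∀ (u v K : ℕ) (B : Finset ℕ) (P : Finset (ℕ × ℕ)), u < b ^ l → v < b ^ l →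
      B ⊆ range (b ^ K) → P ⊆ B ×ˢ B →
      |∑ p ∈ P, ((cnt2 b l u v K (p.1 + p.2) p.1 : ℝ) - K / (b : ℝ) ^ (2 * l))| ≤
        C * (K : ℝ) ^ (3 / 4 : ℝ) *
          ((b : ℝ) ^ K * ∑ n ∈ range (2 * b ^ K), (r B n : ℝ) ^ 2) ^ (1 / 2 : ℝ) := by
  set Z : ℝ := ∑' n, zt n with hZ
  have hZ0 : 0 ≤ Z := tsum_nonneg zt_nonneg
  refine ⟨(2 * ((1 + 2 * Z) ^ 2) ^ (3 / 4 : ℝ) + l) * 8 ^ (1 / 4 : ℝ), by positivity,
    fun u v K B P hu hv hB hP => ?_⟩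
  have hb0 : 0 < b := by omega
  rcases Nat.eq_zero_or_pos K with hK | hK
  · subst hK
    simp [cnt2]
  set En : ℝ := ∑ n ∈ range (2 * b ^ K), (r B n : ℝ) ^ 2 with hEn
  have hEn0 : 0 ≤ En := Finset.sum_nonneg fun n _ => sq_nonneg _
  have hK1 : (1 : ℝ) ≤ (K : ℝ) ^ (3 / 4 : ℝ) :=
    Real.one_le_rpow (by exact_mod_cast hK) (by norm_num)
  have hbK : (0 : ℝ) < (b : ℝ) ^ K := by positivity
  have hfour : ((4 * (b : ℝ) ^ K) * (2 * (b : ℝ) ^ K) * En ^ 2) ^ (1 / 4 : ℝ) =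
      8 ^ (1 / 4 : ℝ) * ((b : ℝ) ^ K * En) ^ (1 / 2 : ℝ) := by
    rw [show (4 * (b : ℝ) ^ K) * (2 * (b : ℝ) ^ K) * En ^ 2 = 8 * ((b : ℝ) ^ K * En) ^ 2 by ring,
      Real.mul_rpow (by norm_num) (by positivity), ← Real.rpow_natCast ((b : ℝ) ^ K * En) 2,
      ← Real.rpow_mul (by positivity)]
    norm_num
  set W : ℝ := ((b : ℝ) ^ K * En) ^ (1 / 2 : ℝ) with hW
  have hW0 : 0 ≤ W := by positivity
  -- the card
  have hcard : (#P : ℝ) ≤ 8 ^ (1 / 4 : ℝ) * W := by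
    have h := card_le2 (N := b ^ K) (by positivity) hB hP
    push_cast at h
    rw [← hEn] at h
    have h2 : ((#P : ℝ) ^ 4) ^ (1 / 4 : ℝ) ≤
        ((4 * (b : ℝ) ^ K) * (2 * (b : ℝ) ^ K) * En ^ 2) ^ (1 / 4 : ℝ) :=
      Real.rpow_le_rpow (by positivity) h (by norm_num)
    rw [← Real.rpow_natCast, ← Real.rpow_mul (Nat.cast_nonneg _), hfour] at h2
    norm_num at h2 ⊢
    exact h2
  have hqq : (((b ^ l : ℕ) : ℝ)) ^ 2 = (b : ℝ) ^ (2 * l) := by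
    push_cast
    rw [← pow_mul, mul_comm]
  -- one position
  have hone : ∀ i, |∑ p ∈ P, ((if (p.1 + p.2) / b ^ i % b ^ l = u ∧ p.1 / b ^ i % b ^ l = v
      then (1 : ℝ) else 0) - 1 / (b : ℝ) ^ (2 * l))| ≤
      if i + l ≤ K then V2 P (b ^ (i + l - 1 + 1)) else #P := by
    intro i
    split_ifs with h
    · have := arc_sum2 (L := b ^ i) (q := b ^ l) (by positivity) hu hv P
      rw [← pow_add, hqq] at this
      rw [Nat.sub_add_cancel (by omega)]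
      exact this
    · refine (Finset.abs_sum_le_sum_abs _ _).trans ?_
      have e : ∀ p ∈ P, |(if (p.1 + p.2) / b ^ i % b ^ l = u ∧ p.1 / b ^ i % b ^ l = v
          then (1 : ℝ) else 0) - 1 / (b : ℝ) ^ (2 * l)| ≤ 1 := by
        intro a _
        have h1 : (0 : ℝ) ≤ 1 / (b : ℝ) ^ (2 * l) := by positivity
        have h2 : 1 / (b : ℝ) ^ (2 * l) ≤ 1 := by
          rw [div_le_one (by positivity)]
          exact one_le_pow₀ (by exact_mod_cast hb0)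
        rw [abs_le]
        split_ifs <;> constructor <;> linarith
      refine (Finset.sum_le_sum e).trans ?_
      simp
  -- exchange
  have hex : ∑ p ∈ P, ((cnt2 b l u v K (p.1 + p.2) p.1 : ℝ) - K / (b : ℝ) ^ (2 * l)) =
      ∑ i ∈ range K, ∑ p ∈ P,
        ((if (p.1 + p.2) / b ^ i % b ^ l = u ∧ p.1 / b ^ i % b ^ l = v
          then (1 : ℝ) else 0) - 1 / (b : ℝ) ^ (2 * l)) := by
    rw [Finset.sum_comm]
    refine Finset.sum_congr rfl fun a _ => ?_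
    rw [Finset.sum_sub_distrib, Finset.sum_const, card_range, nsmul_eq_mul, cnt2,
      Finset.card_filter]
    push_cast
    ring
  rw [hex]
  refine (Finset.abs_sum_le_sum_abs _ _).trans ((Finset.sum_le_sum fun i _ => hone i).trans ?_)
  rw [Finset.sum_ite, Finset.sum_const, nsmul_eq_mul]
  have hA : ∑ i ∈ range K with i + l ≤ K, V2 P (b ^ (i + l - 1 + 1)) ≤
      ∑ t ∈ range K, V2 P (b ^ (t + 1)) := by
    have e : ∑ i ∈ range K with i + l ≤ K, V2 P (b ^ (i + l - 1 + 1)) =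
        ∑ t ∈ ((range K).filter (fun i => i + l ≤ K)).image (fun i => i + l - 1),
          V2 P (b ^ (t + 1)) := by
      rw [Finset.sum_image]
      intro i _ j _ hij
      simp only at hij
      omega
    rw [e]
    apply Finset.sum_le_sum_of_subset_of_nonneg
    · intro t ht
      rw [Finset.mem_image] at ht
      obtain ⟨i, hi, rfl⟩ := ht
      rw [Finset.mem_filter, Finset.mem_range] at hi
      rw [Finset.mem_range]
      omega
    · intro t _ _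
      exact V2_nonneg P _
  have hC : (#((range K).filter (fun i => ¬ i + l ≤ K)) : ℝ) ≤ l := by
    have : #((range K).filter (fun i => ¬ i + l ≤ K)) ≤ #(Finset.Ico (K - l) K) := by
      apply Finset.card_le_card
      intro i hi
      rw [Finset.mem_filter, Finset.mem_range] at hi
      rw [Finset.mem_Ico]
      omega
    rw [Nat.card_Ico] at this
    have h2 : K - (K - l) ≤ l := by omega
    exact_mod_cast this.trans h2
  have hVs := V2_sum hb P K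
  have hV0 := V2_nonneg P (b ^ K)
  have hU := U2_sum hb hB hP
  rw [← hZ, ← hEn, hfour] at hU
  have hsplit : ((1 + 2 * Z) ^ 2 * K) ^ (3 / 4 : ℝ) =
      ((1 + 2 * Z) ^ 2) ^ (3 / 4 : ℝ) * (K : ℝ) ^ (3 / 4 : ℝ) :=
    Real.mul_rpow (by positivity) (by positivity)
  rw [hsplit] at hU
  have h7 : (#((range K).filter (fun i => ¬ i + l ≤ K)) : ℝ) * #P ≤
      l * (8 ^ (1 / 4 : ℝ) * W) * (K : ℝ) ^ (3 / 4 : ℝ) := by
    calc _ ≤ (l : ℝ) * (8 ^ (1 / 4 : ℝ) * W) :=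
          mul_le_mul hC hcard (Nat.cast_nonneg _) (Nat.cast_nonneg _)
      _ ≤ _ := le_mul_of_one_le_right (by positivity) hK1
  nlinarith [hA, hVs, hV0, hU, h7]

/-- the energy of the elements below `b^K` -/
theorem energy_le {A : Set ℕ} {C : ℝ} (hA : ∀ x : ℕ, ∑ n ∈ range x, (rep A n : ℝ) ^ 2 ≤ C * x)
    {B : Finset ℕ} (hB : (B : Set ℕ) ⊆ A) (N : ℕ) :
    ∑ n ∈ range (2 * N), (r B n : ℝ) ^ 2 ≤ 2 * |C| * N := by
  calc ∑ n ∈ range (2 * N), (r B n : ℝ) ^ 2 ≤ ∑ n ∈ range (2 * N), (rep A n : ℝ) ^ 2 := by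
        refine Finset.sum_le_sum fun n _ => ?_
        have : (r B n : ℝ) ≤ rep A n := by
          rw [r_eq]
          exact_mod_cast rep_mono hB n
        exact pow_le_pow_left₀ (Nat.cast_nonneg _) this 2
    _ ≤ C * ((2 * N : ℕ) : ℝ) := hA _
    _ ≤ |C| * ((2 * N : ℕ) : ℝ) := mul_le_mul_of_nonneg_right (le_abs_self _) (by positivity)
    _ = _ := by push_cast; ring

open Classical in
/-- the `n < b^K` with a representation `n = a + a'` for which the number of pairs of blocks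
`u`, `v` in `(n, a)` differs from the expected number by at least `w` -/
noncomputable def bad2 (b l u v : ℕ) (A : Set ℕ) (K : ℕ) (w : ℝ) : Finset ℕ :=
  {n ∈ range (b ^ K) | ∃ a ∈ A, ∃ a' ∈ A, a + a' = n ∧
    w ≤ |(cnt2 b l u v K n a : ℝ) - K / (b : ℝ) ^ (2 * l)|}

theorem card_bad2 {b l : ℕ} (hb : 2 ≤ b) (hl : 1 ≤ l) : ∃ C₁ : ℝ, 0 < C₁ ∧
    ∀ (u v : ℕ) (_ : u < b ^ l) (_ : v < b ^ l) (A : Set ℕ) (C : ℝ)
      (_ : ∀ x : ℕ, ∑ n ∈ range x, (rep A n : ℝ) ^ 2 ≤ C * x) (K : ℕ) (w : ℝ) (_ : 0 < w),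
    (#(bad2 b l u v A K w) : ℝ) / (b : ℝ) ^ K ≤
      2 * (C₁ * (2 * |C|) ^ (1 / 2 : ℝ)) / (w / (K : ℝ) ^ (3 / 4 : ℝ)) := by
  classical
  obtain ⟨C₁, hC₁, hup⟩ := upper2 b l hb hl
  refine ⟨C₁, hC₁, fun u v hu hv A C hA K w hw => ?_⟩
  have hbK : (0 : ℝ) < (b : ℝ) ^ K := by positivity
  set B : Finset ℕ := below A (b ^ K) with hBdef
  have hBr : B ⊆ range (b ^ K) := fun a ha => Finset.mem_range.2 (mem_below.1 ha).1
  have hBA : (B : Set ℕ) ⊆ A := fun a ha => (mem_below.1 ha).2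
  set W : ℝ := ((b : ℝ) ^ K * ∑ n ∈ range (2 * b ^ K), (r B n : ℝ) ^ 2) ^ (1 / 2 : ℝ) with hW
  have hW1 : W ≤ (2 * |C|) ^ (1 / 2 : ℝ) * (b : ℝ) ^ K := by
    have e1 : (b : ℝ) ^ K = ((b : ℝ) ^ K * (b : ℝ) ^ K) ^ (1 / 2 : ℝ) := by
      rw [← sq, ← Real.rpow_natCast ((b : ℝ) ^ K) 2, ← Real.rpow_mul hbK.le]
      norm_num
    have e2 : (2 * |C|) ^ (1 / 2 : ℝ) * (b : ℝ) ^ K =
        (2 * |C| * ((b : ℝ) ^ K * (b : ℝ) ^ K)) ^ (1 / 2 : ℝ) := by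
      rw [Real.mul_rpow (x := 2 * |C|) (y := (b : ℝ) ^ K * (b : ℝ) ^ K) (by positivity)
        (by positivity), ← e1]
    rw [e2, hW]
    apply Real.rpow_le_rpow
    · exact mul_nonneg hbK.le (Finset.sum_nonneg fun n _ => sq_nonneg _)
    · have h3 := energy_le hA hBA (b ^ K)
      push_cast at h3
      nlinarith [h3, hbK]
    · norm_num
  have hone : ∀ (σ : ℝ), |σ| = 1 → ∀ P : Finset (ℕ × ℕ), P ⊆ B ×ˢ B →
      (∀ p ∈ P, w ≤ σ * ((cnt2 b l u v K (p.1 + p.2) p.1 : ℝ) - K / (b : ℝ) ^ (2 * l))) →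
      #P * w ≤ C₁ * (K : ℝ) ^ (3 / 4 : ℝ) * ((2 * |C|) ^ (1 / 2 : ℝ) * (b : ℝ) ^ K) := by
    intro σ hσ P hP hPw
    have h1 := hup u v K B P hu hv hBr hP
    calc #P * w = ∑ _p ∈ P, w := by rw [Finset.sum_const, nsmul_eq_mul]
      _ ≤ ∑ p ∈ P, σ * ((cnt2 b l u v K (p.1 + p.2) p.1 : ℝ) - K / (b : ℝ) ^ (2 * l)) :=
          Finset.sum_le_sum hPw
      _ = σ * ∑ p ∈ P, ((cnt2 b l u v K (p.1 + p.2) p.1 : ℝ) - K / (b : ℝ) ^ (2 * l)) := by
          rw [Finset.mul_sum]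
      _ ≤ |σ * ∑ p ∈ P, ((cnt2 b l u v K (p.1 + p.2) p.1 : ℝ) - K / (b : ℝ) ^ (2 * l))| :=
          le_abs_self _
      _ = |∑ p ∈ P, ((cnt2 b l u v K (p.1 + p.2) p.1 : ℝ) - K / (b : ℝ) ^ (2 * l))| := by
          rw [abs_mul, hσ, one_mul]
      _ ≤ _ := h1.trans (mul_le_mul_of_nonneg_left hW1 (by positivity))
  set P : Finset (ℕ × ℕ) := {p ∈ B ×ˢ B |
    w ≤ 1 * ((cnt2 b l u v K (p.1 + p.2) p.1 : ℝ) - K / (b : ℝ) ^ (2 * l))}
  set Q : Finset (ℕ × ℕ) := {p ∈ B ×ˢ B |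
    w ≤ -1 * ((cnt2 b l u v K (p.1 + p.2) p.1 : ℝ) - K / (b : ℝ) ^ (2 * l))}
  have h1 := hone 1 (by simp) P (Finset.filter_subset _ _) (fun p hp => (Finset.mem_filter.1 hp).2)
  have h2 := hone (-1) (by simp) Q (Finset.filter_subset _ _)
    (fun p hp => (Finset.mem_filter.1 hp).2)
  have h3 : bad2 b l u v A K w ⊆ (P ∪ Q).image (fun p => p.1 + p.2) := by
    intro n hn
    obtain ⟨h4, a, ha, a', ha', rfl, h5⟩ := Finset.mem_filter.1 hn
    rw [Finset.mem_range] at h4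
    rw [Finset.mem_image]
    refine ⟨(a, a'), ?_, rfl⟩
    have h6 : (a, a') ∈ B ×ˢ B := Finset.mem_product.2
      ⟨mem_below.2 ⟨by dsimp only; omega, ha⟩, mem_below.2 ⟨by dsimp only; omega, ha'⟩⟩
    rw [Finset.mem_union, Finset.mem_filter, Finset.mem_filter]
    rcases le_abs.1 h5 with h7 | h7
    · exact Or.inl ⟨h6, by rwa [one_mul]⟩
    · exact Or.inr ⟨h6, by dsimp only; linarith⟩
  have h4 : (#(bad2 b l u v A K w) : ℝ) ≤ #P + #Q := by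
    exact_mod_cast (Finset.card_le_card h3).trans (Finset.card_image_le.trans
      (Finset.card_union_le _ _))
  have h5 : #(bad2 b l u v A K w) * w ≤
      2 * (C₁ * (K : ℝ) ^ (3 / 4 : ℝ) * ((2 * |C|) ^ (1 / 2 : ℝ) * (b : ℝ) ^ K)) := by
    calc #(bad2 b l u v A K w) * w ≤ (#P + #Q) * w := mul_le_mul_of_nonneg_right h4 hw.le
      _ = #P * w + #Q * w := add_mul _ _ _
      _ ≤ _ := by linarith
  rw [div_le_iff₀ hbK, div_div_eq_mul_div, div_mul_eq_mul_div, le_div_iff₀ hw]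
  calc #(bad2 b l u v A K w) * w ≤ _ := h5
    _ = _ := by ring

/-- THE THREE QUARTER LAW, with pairs -/
theorem law2 (ω : ℕ → ℝ) : List.TFAE [
    Tendsto (fun K : ℕ => ω K / (K : ℝ) ^ (3 / 4 : ℝ)) atTop atTop,
    ∀ b l : ℕ, 2 ≤ b → 1 ≤ l → ∀ (A : Set ℕ) (C : ℝ),
      (∀ x : ℕ, ∑ n ∈ range x, (rep A n : ℝ) ^ 2 ≤ C * x) →
        (∀ v < b ^ l, Tendsto (fun K : ℕ => (#(bad b l v A K (ω K)) : ℝ) / √((b : ℝ) ^ K))
          atTop (nhds 0)) ∧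
        ∀ u < b ^ l, ∀ v < b ^ l,
          Tendsto (fun K : ℕ => (#(bad2 b l u v A K (ω K)) : ℝ) / (b : ℝ) ^ K) atTop (nhds 0),
    ∀ (A : Set ℕ) (c C : ℝ), 0 < c → (∀ x : ℕ, 2 ≤ x → c * √x ≤ #(below A x)) →
      (∀ x : ℕ, ∑ n ∈ range x, (rep A n : ℝ) ^ 2 ≤ C * x) →
        ∀ᶠ K : ℕ in atTop, ∃ a ∈ A, a < 2 ^ K ∧ |(cnt 2 1 0 K a : ℝ) - K / 2| < ω K] := by
  have hlaw := law ω
  have h01 := hlaw.out 0 1
  have h12 := hlaw.out 1 2
  have h20 := hlaw.out 2 0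
  tfae_have 1 → 2 := by
    intro h b l hb hl A C hA
    refine ⟨fun v hv => h01.1 h b l v hb hl hv A C hA, fun u hu v hv => ?_⟩
    obtain ⟨C₁, hC₁, hcb⟩ := card_bad2 (b := b) (l := l) hb hl
    have h1 : Tendsto (fun K : ℕ => 2 * (C₁ * (2 * |C|) ^ (1 / 2 : ℝ)) /
        (ω K / (K : ℝ) ^ (3 / 4 : ℝ))) atTop (nhds 0) := h.const_div_atTop _
    refine squeeze_zero' (Eventually.of_forall fun K => div_nonneg (Nat.cast_nonneg _)
      (pow_nonneg (Nat.cast_nonneg _) _)) ?_ h1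
    filter_upwards [h.eventually_gt_atTop 0, eventually_gt_atTop 0] with K hK hK0
    have hK' : (0 : ℝ) < (K : ℝ) ^ (3 / 4 : ℝ) := Real.rpow_pos_of_pos (by exact_mod_cast hK0) _
    have hw : 0 < ω K := by
      have := mul_pos hK hK'
      rwa [div_mul_cancel₀ _ hK'.ne'] at this
    exact hcb u v hu hv A C hA K (ω K) hw
  tfae_have 2 → 3 := fun h =>
    h12.1 fun b l v hb hl hv A C hA => (h b l hb hl A C hA).1 v hv
  tfae_have 3 → 1 := h20.1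
  tfae_finish

end Pool.Agent.Helper5.TQ
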